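import Pool.Agent.U94.NA.Count

/-!
# The average size of the shortest fraction
-/

set_option autoImplicit false

namespace Pool.Agent.U94.NA

open Finset Module

variable {R : Type} [CommRing R] {d : ℕ} (b : Basis (Fin d) ℤ R)
variable {Q : Type} [CommRing Q] [Fintype Q] (p : R →+* Q)

/-- The norm of the shortest nonzero pair `(f, g)` with `f = g q`. -/
noncomputable def minPair (q : Q) : ℕ :=
  sInf {k | ∃ f g, ¬ (f = 0 ∧ g = 0) ∧ p f = p g * q ∧ max (nr b f) (nr b g) = k}

/-- The norm of the shortest pair `(f, g)` with `f = g q` and an admissible denominator. -/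
noncomputable def minFrac (Adm : R → Prop) (q : Q) : ℕ :=
  sInf {k | ∃ f g, Adm g ∧ p f = p g * q ∧ max (nr b f) (nr b g) = k}

variable {b p}

omit [Fintype Q] in
theorem minPair_spec [IsDomain R] (hp : Function.Surjective p) (q : Q) :
    ∃ f g, ¬ (f = 0 ∧ g = 0) ∧ p f = p g * q ∧ max (nr b f) (nr b g) = minPair b p q := by
  have hne : {k | ∃ f g, ¬ (f = 0 ∧ g = 0) ∧ p f = p g * q ∧
      max (nr b f) (nr b g) = k}.Nonempty := by
    obtain ⟨f, hf⟩ := hp q
    exact ⟨_, f, 1, fun h => one_ne_zero h.2, by rw [hf, map_one, one_mul], rfl⟩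
  exact Nat.sInf_mem hne

omit [Fintype Q] in
theorem minPair_le {q : Q} {f g : R} (h0 : ¬ (f = 0 ∧ g = 0)) (h : p f = p g * q) :
    minPair b p q ≤ max (nr b f) (nr b g) := Nat.sInf_le ⟨f, g, h0, h, rfl⟩

omit [Fintype Q] in
theorem one_le_minPair [IsDomain R] (hp : Function.Surjective p) (q : Q) :
    1 ≤ minPair b p q := by
  obtain ⟨f, g, h0, -, h⟩ := minPair_spec (b := b) hp q
  rw [← h]
  by_cases hf : f = 0
  · have hg : g ≠ 0 := fun hg => h0 ⟨hf, hg⟩
    exact (nr_pos b hg).trans (le_max_right _ _)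
  · exact (nr_pos b hf).trans (le_max_left _ _)

omit [Fintype Q] in
theorem minFrac_spec (hp : Function.Surjective p) {Adm : R → Prop} (h1 : Adm 1) (q : Q) :
    ∃ f g, Adm g ∧ p f = p g * q ∧ max (nr b f) (nr b g) = minFrac b p Adm q := by
  have hne : {k | ∃ f g, Adm g ∧ p f = p g * q ∧ max (nr b f) (nr b g) = k}.Nonempty := by
    obtain ⟨f, hf⟩ := hp q
    exact ⟨_, f, 1, h1, by rw [hf, map_one, one_mul], rfl⟩
  exact Nat.sInf_mem hne

omit [Fintype Q] in
theorem minFrac_le {Adm : R → Prop} {q : Q} {f g : R} (hg : Adm g) (h : p f = p g * q) :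
    minFrac b p Adm q ≤ max (nr b f) (nr b g) := Nat.sInf_le ⟨f, g, hg, h, rfl⟩

omit [Fintype Q] in
theorem minPair_le_minFrac (hp : Function.Surjective p) {Adm : R → Prop} (h1 : Adm 1)
    (h0 : ¬ Adm 0) (q : Q) : minPair b p q ≤ minFrac b p Adm q := by
  obtain ⟨f, g, hg, h, he⟩ := minFrac_spec (b := b) hp h1 q
  rw [← he]
  exact minPair_le (fun hfg => h0 (hfg.2 ▸ hg)) h

/-- The homomorphism whose kernel is the lattice of the pairs. -/
noncomputable def pairHom (b : Basis (Fin d) ℤ R) (p : R →+* Q) (q : Q) :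
    (Fin d ⊕ Fin d → ℤ) →+ Q where
  toFun z := p (b.equivFun.symm (fun i => z (Sum.inl i))) -
    p (b.equivFun.symm (fun i => z (Sum.inr i))) * q
  map_zero' := by
    have h : (fun _ : Fin d => (0 : ℤ)) = 0 := rfl
    simp only [Pi.zero_apply, h, map_zero, zero_mul, sub_zero]
  map_add' z w := by
    have h1 : (fun i => (z + w) (Sum.inl i)) = (fun i => z (Sum.inl i)) + fun i => w (Sum.inl i) :=
      rfl
    have h2 : (fun i => (z + w) (Sum.inr i)) = (fun i => z (Sum.inr i)) + fun i => w (Sum.inr i) :=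
      rfl
    rw [h1, h2, map_add, map_add, map_add, map_add]
    ring

/-- A pair as an integer vector. -/
noncomputable def pairVec (b : Basis (Fin d) ℤ R) (f g : R) : Fin d ⊕ Fin d → ℤ :=
  Sum.elim (b.equivFun f) (b.equivFun g)

theorem nn_pairVec (f g : R) : nn (pairVec b f g) = max (nr b f) (nr b g) := by
  apply le_antisymm
  · refine nn_le_iff.2 fun i => ?_
    cases i with
    | inl i => exact (natAbs_le_nn (b.equivFun f) i).trans (le_max_left _ _)
    | inr i => exact (natAbs_le_nn (b.equivFun g) i).trans (le_max_right _ _)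
  · refine max_le (nn_le_iff.2 fun i => ?_) (nn_le_iff.2 fun i => ?_)
    · exact natAbs_le_nn (pairVec b f g) (Sum.inl i)
    · exact natAbs_le_nn (pairVec b f g) (Sum.inr i)

theorem exists_pair (z : Fin d ⊕ Fin d → ℤ) : ∃ f g, z = pairVec b f g := by
  refine ⟨b.equivFun.symm (fun i => z (Sum.inl i)), b.equivFun.symm (fun i => z (Sum.inr i)), ?_⟩
  funext i
  cases i with
  | inl i =>
    change _ = b.equivFun (b.equivFun.symm _) i
    rw [LinearEquiv.apply_symm_apply]
  | inr i =>
    change _ = b.equivFun (b.equivFun.symm _) i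
    rw [LinearEquiv.apply_symm_apply]

omit [Fintype Q] in
theorem pairHom_pairVec (q : Q) (f g : R) : pairHom b p q (pairVec b f g) = p f - p g * q := by
  change p (b.equivFun.symm (b.equivFun f)) - p (b.equivFun.symm (b.equivFun g)) * q = _
  rw [LinearEquiv.symm_apply_apply, LinearEquiv.symm_apply_apply]

theorem pairVec_eq_zero {f g : R} : pairVec b f g = 0 ↔ f = 0 ∧ g = 0 := by
  rw [← nn_eq_zero, nn_pairVec]
  constructor
  · intro h
    have h1 : nr b f ≤ 0 := (le_max_left _ _).trans h.le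
    have h2 : nr b g ≤ 0 := (le_max_right _ _).trans h.le
    exact ⟨(nr_eq_zero b).1 (by omega), (nr_eq_zero b).1 (by omega)⟩
  · rintro ⟨rfl, rfl⟩
    rw [(nr_eq_zero b).2 rfl, max_self]

/-- **The transference inequality.** -/
theorem minFrac_mul_le [IsDomain R] (hp : Function.Surjective p) (hd : 1 ≤ d) {N : ℕ} (hN : 1 ≤ N)
    {Adm : R → Prop} (hAdm : ∀ y, Adm (1 - (N : R) * y)) (q : Q) :
    minFrac b p Adm q * minPair b p q ^ (2 * d - 1) ≤ (4 * (2 * d)) ^ (2 * d) *
      (N * Fintype.card Q) := by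
  obtain ⟨x, hx⟩ := hp q
  have hm : Fintype.card (Fin d ⊕ Fin d) = (2 * d - 1) + 1 := by
    rw [Fintype.card_sum, Fintype.card_fin]
    omega
  obtain ⟨w, hw, hle⟩ := exists_short (pairHom b p q) hm (one_le_minPair (b := b) hp q) (by
    intro z hz hz0
    obtain ⟨f, g, rfl⟩ := exists_pair (b := b) z
    rw [nn_pairVec]
    rw [pairHom_pairVec, sub_eq_zero] at hz
    exact minPair_le (fun h => hz0 (pairVec_eq_zero.2 h)) hz) hN (pairVec b x 1)
  obtain ⟨f, g, rfl⟩ := exists_pair (b := b) w
  rw [pairHom_pairVec, sub_eq_zero] at hw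
  have h1 : pairVec b x 1 - (N : ℤ) • pairVec b f g =
      pairVec b (x - (N : R) * f) (1 - (N : R) * g) := by
    have h2 : ∀ y z : R, b.equivFun (y - (N : R) * z) = b.equivFun y - (N : ℤ) • b.equivFun z := by
      intro y z
      have : (N : R) * z = (N : ℤ) • z := by simp
      rw [this, map_sub, map_smul]
    funext i
    cases i with
    | inl i =>
      change _ = b.equivFun (x - (N : R) * f) i
      rw [h2]
      rfl
    | inr i =>
      change _ = b.equivFun (1 - (N : R) * g) i
      rw [h2]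
      rfl
  rw [h1, nn_pairVec] at hle
  have h2 : 2 * d - 1 + 1 = 2 * d := by omega
  rw [h2] at hle
  refine le_trans (Nat.mul_le_mul_right _ (minFrac_le (hAdm g) ?_)) hle
  rw [map_sub, map_sub, map_mul, map_mul, hw, hx, map_one]
  ring

/-! ### The averages -/

/-- A logarithm is bounded by a number of dyadic steps. -/
theorem log_le_steps {D μ e S : ℕ} (hμ : 1 ≤ μ) (hD : 1 ≤ D) (he : 1 ≤ e) (hS : D < (2 ^ S) ^ e) :
    Real.log D / e - Real.log μ ≤ Real.log 2 *
      ((Finset.range S).filter (fun s => (2 ^ s * μ) ^ e ≤ D)).card := by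
  have hex : ∃ s, D < (2 ^ s * μ) ^ e :=
    ⟨S, hS.trans_le (Nat.pow_le_pow_left (Nat.le_mul_of_pos_right _ hμ) _)⟩
  obtain ⟨k, hk, hmin⟩ : ∃ k, D < (2 ^ k * μ) ^ e ∧ ∀ s, D < (2 ^ s * μ) ^ e → k ≤ s := by
    classical
    exact ⟨Nat.find hex, Nat.find_spec hex, fun s hs => Nat.find_min' hex hs⟩
  have hkS : k ≤ S := hmin S (hS.trans_le (Nat.pow_le_pow_left (Nat.le_mul_of_pos_right _ hμ) _))
  have hsub : Finset.range k ⊆ (Finset.range S).filter (fun s => (2 ^ s * μ) ^ e ≤ D) := by
    intro s hs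
    rw [Finset.mem_range] at hs
    rw [Finset.mem_filter, Finset.mem_range]
    refine ⟨by omega, ?_⟩
    by_contra hlt
    push Not at hlt
    have := hmin s hlt
    omega
  have hcard := Finset.card_le_card hsub
  rw [Finset.card_range] at hcard
  have hl2 : 0 ≤ Real.log 2 := Real.log_nonneg (by norm_num)
  have h1 : Real.log D ≤ e * (k * Real.log 2 + Real.log μ) := by
    have h2 : (D : ℝ) ≤ ((2 ^ k * μ : ℕ) : ℝ) ^ e := by exact_mod_cast hk.le
    have h3 := Real.log_le_log (by exact_mod_cast hD) h2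
    rw [Real.log_pow] at h3
    push_cast at h3
    rwa [Real.log_mul (by positivity) (by exact_mod_cast (show μ ≠ 0 by omega)), Real.log_pow] at h3
  have he' : (0 : ℝ) < e := by exact_mod_cast he
  have h4 : Real.log D / e ≤ k * Real.log 2 + Real.log μ := by
    rw [div_le_iff₀ he']
    linarith
  have h5 : (k : ℝ) * Real.log 2 ≤ Real.log 2 *
      ((Finset.range S).filter (fun s => (2 ^ s * μ) ^ e ≤ D)).card := by
    rw [mul_comm]
    exact mul_le_mul_of_nonneg_left (by exact_mod_cast hcard) hl2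
  linarith

/-- **The average of the logarithms from below.** -/
theorem sum_log_minPair [IsDomain R] (hp : Function.Surjective p) {M : ℕ} (hM : MulBound b M)
    (hd : 1 ≤ d) : ∑ q : Q, (Real.log (Fintype.card Q) / (2 * d) - Real.log (minPair b p q)) ≤
      2 * Real.log 2 * (12 ^ d * (d.factorial * M ^ d)) * Fintype.card Q := by
  classical
  set D := Fintype.card Q with hD
  have hD1 : 1 ≤ D := Fintype.card_pos
  set C₁ := 12 ^ d * (d.factorial * M ^ d) with hC₁
  have hS : D < (2 ^ D) ^ (2 * d) := by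
    have h1 : D < 2 ^ D := Nat.lt_two_pow_self
    refine h1.trans_le ?_
    exact Nat.le_self_pow (by omega) _
  have h1 : ∀ q : Q, Real.log D / (2 * d) - Real.log (minPair b p q) ≤ Real.log 2 *
      ((Finset.range D).filter (fun s => (2 ^ s * minPair b p q) ^ (2 * d) ≤ D)).card := by
    intro q
    have := log_le_steps (e := 2 * d) (one_le_minPair (b := b) hp q) hD1 (by omega) hS
    push_cast at this
    exact this
  refine (Finset.sum_le_sum fun q _ => h1 q).trans ?_
  rw [← Finset.mul_sum]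
  have h2 : ∑ q : Q, (((Finset.range D).filter
      (fun s => (2 ^ s * minPair b p q) ^ (2 * d) ≤ D)).card : ℝ) =
      ∑ s ∈ Finset.range D, (((Finset.univ : Finset Q).filter
        (fun q => (2 ^ s * minPair b p q) ^ (2 * d) ≤ D)).card : ℝ) := by
    simp only [Finset.card_filter, Nat.cast_sum]
    rw [Finset.sum_comm]
  rw [h2]
  have h3 : ∀ s ∈ Finset.range D, (((Finset.univ : Finset Q).filter
      (fun q => (2 ^ s * minPair b p q) ^ (2 * d) ≤ D)).card : ℝ) ≤ C₁ * D * (1 / 2) ^ s := by
    intro s _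
    -- the largest norm
    have hbd : ∀ X : ℕ, (2 ^ s * X) ^ (2 * d) ≤ D → X ≤ D := by
      intro X hX
      have h4 : X ≤ (2 ^ s * X) ^ (2 * d) :=
        (Nat.le_mul_of_pos_left X (by positivity)).trans (Nat.le_self_pow (by omega) _)
      omega
    obtain ⟨X, hX, hXmax⟩ : ∃ X, (2 ^ s * X) ^ (2 * d) ≤ D ∧
        ∀ Y, (2 ^ s * Y) ^ (2 * d) ≤ D → Y ≤ X := by
      have hne : ((Finset.range (D + 1)).filter (fun X => (2 ^ s * X) ^ (2 * d) ≤ D)).Nonempty :=
        ⟨0, by simp [show d ≠ 0 by omega]⟩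
      refine ⟨_, (Finset.mem_filter.1 (Finset.max'_mem _ hne)).2, fun Y hY => ?_⟩
      have hYm : Y ∈ (Finset.range (D + 1)).filter (fun X => (2 ^ s * X) ^ (2 * d) ≤ D) :=
        Finset.mem_filter.2 ⟨Finset.mem_range.2 (by have := hbd Y hY; omega), hY⟩
      exact Finset.le_max' _ Y hYm
    rcases Nat.eq_zero_or_pos X with h0 | hX1
    · have hempty : (Finset.univ : Finset Q).filter
          (fun q => (2 ^ s * minPair b p q) ^ (2 * d) ≤ D) = ∅ := by
        rw [Finset.filter_eq_empty_iff]
        intro q _ hq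
        have h4 := hXmax _ hq
        have h5 := one_le_minPair (b := b) hp q
        omega
      rw [hempty]
      simp only [Finset.card_empty, Nat.cast_zero]
      positivity
    · have hsub : (Finset.univ : Finset Q).filter
          (fun q => (2 ^ s * minPair b p q) ^ (2 * d) ≤ D) ⊆
          (Finset.univ : Finset Q).filter (fun a => ∃ f g, ¬ (f = 0 ∧ g = 0) ∧ nr b f ≤ X ∧
            nr b g ≤ X ∧ p f = p g * a) := by
        intro q hq
        have h4 := hXmax _ (Finset.mem_filter.1 hq).2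
        obtain ⟨f, g, h5, h6, h7⟩ := minPair_spec (b := b) hp q
        exact Finset.mem_filter.2 ⟨Finset.mem_univ _, f, g, h5,
          (le_max_left _ _).trans (h7.le.trans h4), (le_max_right _ _).trans (h7.le.trans h4), h6⟩
      have h4 := (Finset.card_le_card hsub).trans (card_short_le b p hp hM hd hX1)
      have h5 : (2 : ℝ) ^ s * X ^ (2 * d) ≤ D := by
        have h6 : 2 ^ s * X ^ (2 * d) ≤ D := by
          refine le_trans ?_ hX
          rw [mul_pow]
          exact Nat.mul_le_mul_right _ (Nat.le_self_pow (by omega) _)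
        exact_mod_cast h6
      have h6 : (X : ℝ) ^ (2 * d) ≤ D * (1 / 2) ^ s := by
        rw [one_div, inv_pow, ← div_eq_mul_inv, le_div_iff₀ (by positivity), mul_comm]
        exact h5
      calc (((Finset.univ : Finset Q).filter
          (fun q => (2 ^ s * minPair b p q) ^ (2 * d) ≤ D)).card : ℝ) ≤
            ((C₁ * X ^ (2 * d) : ℕ) : ℝ) := by exact_mod_cast h4
        _ = C₁ * (X : ℝ) ^ (2 * d) := by push_cast; ring
        _ ≤ C₁ * (D * (1 / 2) ^ s) := mul_le_mul_of_nonneg_left h6 (by positivity)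
        _ = C₁ * D * (1 / 2) ^ s := by ring
  have h4 := Finset.sum_le_sum h3
  rw [← Finset.mul_sum] at h4
  have h5 : ∑ s ∈ Finset.range D, ((1 : ℝ) / 2) ^ s ≤ 2 := by
    have h6 := (summable_geometric_two).sum_le_tsum (Finset.range D) (fun i _ => by positivity)
    rwa [tsum_geometric_two] at h6
  have hl2 : 0 ≤ Real.log 2 := Real.log_nonneg (by norm_num)
  calc Real.log 2 * ∑ s ∈ Finset.range D, (((Finset.univ : Finset Q).filter
        (fun q => (2 ^ s * minPair b p q) ^ (2 * d) ≤ D)).card : ℝ) ≤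
        Real.log 2 * (C₁ * D * ∑ s ∈ Finset.range D, (1 / 2) ^ s) :=
        mul_le_mul_of_nonneg_left h4 hl2
    _ ≤ Real.log 2 * (C₁ * D * 2) := by
        refine mul_le_mul_of_nonneg_left (mul_le_mul_of_nonneg_left h5 (by positivity)) hl2
    _ = 2 * Real.log 2 * (12 ^ d * (d.factorial * M ^ d)) * D := by
        rw [hC₁]
        push_cast
        ring

/-- **The average of the logarithms of the shortest fractions.** -/
theorem avg_minFrac [IsDomain R] (hp : Function.Surjective p) {M : ℕ} (hM : MulBound b M)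
    (hd : 1 ≤ d) {N : ℕ} (hN : 1 ≤ N) {Adm : R → Prop} (hAdm : ∀ y, Adm (1 - (N : R) * y))
    (h0 : ¬ Adm 0) :
    |(∑ q : Q, Real.log (minFrac b p Adm q)) / Fintype.card Q -
      Real.log (Fintype.card Q) / (2 * d)| ≤
      Real.log ((4 * (2 * d)) ^ (2 * d) * N) +
        (2 * d) * (2 * Real.log 2 * (12 ^ d * (d.factorial * M ^ d))) := by
  have h1 : Adm 1 := by
    have := hAdm 0
    rwa [mul_zero, sub_zero] at this
  have hsum := sum_log_minPair (b := b) hp hM hd
  set D := Fintype.card Q with hD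
  have hD1 : 1 ≤ D := Fintype.card_pos
  have hD0 : (0 : ℝ) < D := by exact_mod_cast hD1
  set K := 2 * Real.log 2 * (12 ^ d * (d.factorial * M ^ d) : ℝ) with hK
  have hl2 : 0 ≤ Real.log 2 := Real.log_nonneg (by norm_num)
  have hK0 : 0 ≤ K := by positivity
  rw [Finset.sum_sub_distrib, Finset.sum_const, Finset.card_univ, ← hD, nsmul_eq_mul] at hsum
  have hd' : (1 : ℝ) ≤ d := by exact_mod_cast hd
  have hN' : (1 : ℝ) ≤ N := by exact_mod_cast hN
  have hlogC : 0 ≤ Real.log ((4 * (2 * d)) ^ (2 * d) * N) := by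
    apply Real.log_nonneg
    have : (1 : ℝ) ≤ (4 * (2 * d)) ^ (2 * d) := one_le_pow₀ (by linarith)
    nlinarith
  -- lower bound
  have hlow : ∑ q : Q, Real.log (minPair b p q) ≤ ∑ q : Q, Real.log (minFrac b p Adm q) := by
    refine Finset.sum_le_sum fun q _ => ?_
    have h2 := one_le_minPair (b := b) hp q
    exact Real.log_le_log (by exact_mod_cast h2)
      (by exact_mod_cast minPair_le_minFrac (b := b) hp h1 h0 q)
  -- upper bound
  have hup : ∀ q : Q, Real.log (minFrac b p Adm q) ≤ Real.log ((4 * (2 * d)) ^ (2 * d) * N) +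
      Real.log D - (2 * d - 1) * Real.log (minPair b p q) := by
    intro q
    have h2 := minFrac_mul_le (b := b) hp hd hN hAdm q
    have h3 := one_le_minPair (b := b) hp q
    have h4 : 1 ≤ minFrac b p Adm q := h3.trans (minPair_le_minFrac (b := b) hp h1 h0 q)
    have h3' : (0 : ℝ) < minPair b p q := by exact_mod_cast h3
    have h4' : (0 : ℝ) < minFrac b p Adm q := by exact_mod_cast h4
    have h5 : (minFrac b p Adm q : ℝ) * (minPair b p q : ℝ) ^ (2 * d - 1) ≤
        ((4 * (2 * d)) ^ (2 * d) * N) * D := by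
      have h6 : ((minFrac b p Adm q * minPair b p q ^ (2 * d - 1) : ℕ) : ℝ) ≤
        (((4 * (2 * d)) ^ (2 * d) * (N * D) : ℕ) : ℝ) := by exact_mod_cast h2
      push_cast at h6
      rw [mul_assoc]
      exact h6
    have h6 := Real.log_le_log (by positivity) h5
    rw [Real.log_mul h4'.ne' (by positivity), Real.log_pow, Real.log_mul (by positivity) hD0.ne'] at h6
    have h7 : ((2 * d - 1 : ℕ) : ℝ) = 2 * d - 1 := by
      rw [Nat.cast_sub (by omega)]
      push_cast
      ring
    rw [h7] at h6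
    linarith
  have hup2 := Finset.sum_le_sum (fun q (_ : q ∈ (Finset.univ : Finset Q)) => hup q)
  rw [Finset.sum_sub_distrib, Finset.sum_const, Finset.card_univ, ← hD, nsmul_eq_mul,
    ← Finset.mul_sum] at hup2
  set A := ∑ q : Q, Real.log (minPair b p q) with hA
  set B := ∑ q : Q, Real.log (minFrac b p Adm q) with hB
  set L := Real.log D / (2 * d) with hL
  have hLd : Real.log D = 2 * d * L := by
    rw [hL]
    field_simp
  have h2 : D * (L - K) ≤ A := by linarith
  rw [abs_le]
  constructor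
  · have h3 : L - K ≤ B / D := by
      rw [le_div_iff₀ hD0, mul_comm]
      linarith
    nlinarith
  · have h3 : B / D ≤ Real.log ((4 * (2 * d)) ^ (2 * d) * N) + L + (2 * d - 1) * K := by
      rw [div_le_iff₀ hD0]
      have h4 : (2 * (d : ℝ) - 1) * (D * (L - K)) ≤ (2 * d - 1) * A :=
        mul_le_mul_of_nonneg_left h2 (by linarith)
      rw [hLd] at hup2
      nlinarith
    nlinarith

end Pool.Agent.U94.NA
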