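import Pool.Agent.U94.NA.Lattice

/-!
# Counting the residues with short fractions
-/

set_option autoImplicit false

namespace Pool.Agent.U94.NA

open Finset Module

variable {R : Type} [CommRing R] {d : ℕ} (b : Basis (Fin d) ℤ R)

/-- The maximum of the absolute values of the coordinates of `x` with respect to the basis `b`. -/
noncomputable def nr (x : R) : ℕ := nn (b.equivFun x)

/-- `M` bounds the multiplication. -/
def MulBound (M : ℕ) : Prop := ∀ x y : R, nr b (x * y) ≤ M * (nr b x * nr b y)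

theorem exists_mulBound : ∃ M, 1 ≤ M ∧ MulBound b M := by
  classical
  refine ⟨(∑ i, ∑ j, nr b (b i * b j)) + 1, Nat.succ_le_succ (Nat.zero_le _), fun x y => ?_⟩
  have h1 : b.equivFun (x * y) = ∑ i, ∑ j, (b.equivFun x i * b.equivFun y j) •
      b.equivFun (b i * b j) := by
    conv_lhs => rw [← b.sum_equivFun x, ← b.sum_equivFun y]
    rw [Finset.sum_mul_sum, map_sum]
    refine Finset.sum_congr rfl fun i _ => ?_
    rw [map_sum]
    refine Finset.sum_congr rfl fun j _ => ?_
    rw [smul_mul_smul_comm, map_smul]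
  refine nn_le_of_abs fun k => ?_
  rw [h1]
  simp only [Finset.sum_apply, Pi.smul_apply, smul_eq_mul]
  refine (Finset.abs_sum_le_sum_abs _ _).trans ?_
  have h2 : ∀ i ∈ (Finset.univ : Finset (Fin d)), |∑ j, b.equivFun x i * b.equivFun y j *
      b.equivFun (b i * b j) k| ≤ ∑ j, (nr b x : ℤ) * nr b y * nr b (b i * b j) := by
    intro i _
    refine (Finset.abs_sum_le_sum_abs _ _).trans (Finset.sum_le_sum fun j _ => ?_)
    rw [abs_mul, abs_mul]
    have h3 := abs_le_nn (b.equivFun x) i
    have h4 := abs_le_nn (b.equivFun y) j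
    have h5 := abs_le_nn (b.equivFun (b i * b j)) k
    exact mul_le_mul (mul_le_mul h3 h4 (abs_nonneg _) (by positivity)) h5 (abs_nonneg _)
      (by positivity)
  refine (Finset.sum_le_sum h2).trans ?_
  push_cast
  simp only [← Finset.mul_sum]
  have h6 : (0 : ℤ) ≤ (nr b x : ℤ) * nr b y := by positivity
  nlinarith

theorem nr_eq_zero {x : R} : nr b x = 0 ↔ x = 0 := by
  rw [nr, nn_eq_zero]
  exact LinearEquiv.map_eq_zero_iff _

theorem nr_pos {x : R} (hx : x ≠ 0) : 1 ≤ nr b x := by
  rw [Nat.one_le_iff_ne_zero]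
  exact fun h => hx ((nr_eq_zero b).1 h)

theorem nr_sub_eq (x y : R) : nr b (x - y) = nn (b.equivFun x - b.equivFun y) := by
  rw [nr, map_sub]

theorem nr_basis [Nontrivial R] (i : Fin d) : nr b (b i) = 1 := by
  classical
  have h1 : b.equivFun (b i) = Pi.single i 1 := by
    funext j
    rw [Basis.equivFun_self]
    simp [Pi.single_apply, eq_comm]
  refine le_antisymm ?_ (nr_pos b (b.ne_zero i))
  rw [nr, h1]
  refine nn_le_of_abs fun j => ?_
  by_cases h : j = i
  · subst h; simp
  · simp [h]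

/-- The bound for the index of a principal ideal. -/
theorem card_quot_le [IsDomain R] {M : ℕ} (hM : MulBound b M) {α : R} (hα : α ≠ 0) :
    Finite (R ⧸ (Ideal.span {α})) ∧
      Nat.card (R ⧸ (Ideal.span {α})) ≤ d.factorial * (M * nr b α) ^ d := by
  classical
  have : Module.Free ℤ R := Module.Free.of_basis b
  have : Module.Finite ℤ R := Module.Finite.of_basis b
  let bN := Ideal.basisSpanSingleton b hα
  have h1 := Submodule.natAbs_det_basis_change b ((Ideal.span {α}).restrictScalars ℤ) bN
  have h2 : Nat.card (R ⧸ ((Ideal.span {α}).restrictScalars ℤ)) = Nat.card (R ⧸ (Ideal.span {α})) :=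
    rfl
  rw [h2] at h1
  have hdet : b.det ((↑) ∘ bN) ≠ 0 := by
    intro h0
    have hli : ∀ v : Fin d → ℤ, ∑ i, v i • ((bN i : (Ideal.span {α} : Ideal R)) : R) = 0 →
        v = 0 := by
      intro v hv
      have h4 : α * ∑ i, v i • b i = 0 := by
        rw [Finset.mul_sum, ← hv]
        refine Finset.sum_congr rfl fun i _ => ?_
        rw [Ideal.basisSpanSingleton_apply, mul_smul_comm]
      have h5 := (mul_eq_zero.1 h4).resolve_left hα
      funext i
      exact Fintype.linearIndependent_iff.1 b.linearIndependent v h5 i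
    rw [Basis.det_apply] at h0
    obtain ⟨v, hv0, hv⟩ := Matrix.exists_mulVec_eq_zero_iff.2 h0
    apply hv0
    refine hli v ?_
    apply b.equivFun.injective
    rw [map_zero, map_sum]
    funext i
    have h5 := congrFun hv i
    simp only [Matrix.mulVec, dotProduct, Basis.toMatrix_apply, Function.comp_apply,
      Pi.zero_apply] at h5
    simp only [Finset.sum_apply, map_smul, Pi.smul_apply, smul_eq_mul, Pi.zero_apply,
      Basis.equivFun_apply]
    rw [← h5]
    refine Finset.sum_congr rfl fun k _ => ?_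
    ring
  have hne : Nat.card (R ⧸ (Ideal.span {α})) ≠ 0 := by
    rw [← h1]
    exact Int.natAbs_ne_zero.2 hdet
  refine ⟨Nat.finite_of_card_ne_zero hne, ?_⟩
  rw [← h1, Basis.det_apply]
  have hR : Nontrivial R := inferInstance
  have h3 := Matrix.det_le (A := b.toMatrix ((↑) ∘ bN)) (abv := AbsoluteValue.abs)
    (x := ((M * nr b α : ℕ) : ℤ)) (by
      intro i j
      rw [AbsoluteValue.abs_apply, Basis.toMatrix_apply, Function.comp_apply,
        Ideal.basisSpanSingleton_apply]
      have h4 := abs_le_nn (b.equivFun (α * b j)) i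
      rw [Basis.equivFun_apply] at h4
      refine h4.trans ?_
      have h5 := hM α (b j)
      rw [nr_basis, mul_one] at h5
      exact_mod_cast h5)
  rw [AbsoluteValue.abs_apply, Fintype.card_fin, Int.abs_eq_natAbs, nsmul_eq_mul] at h3
  exact_mod_cast h3

/-! ### Residues with short fractions -/

section Finite

variable {Q : Type} [CommRing Q] [Finite Q] (p : R →+* Q)

/-- The residues killed by `x`. -/
def killed (x : R) : AddSubgroup Q := (AddMonoidHom.mulLeft (p x)).ker

omit [Finite Q] in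
theorem mem_killed {x : R} {a : Q} : a ∈ killed p x ↔ p x * a = 0 := by
  simp [killed, AddMonoidHom.mem_ker]

theorem card_killed_le [IsDomain R] (hp : Function.Surjective p) {M : ℕ} (hM : MulBound b M)
    {α : R} (hα : α ≠ 0) : Nat.card (killed p α) ≤ d.factorial * (M * nr b α) ^ d := by
  obtain ⟨hfin, hle⟩ := card_quot_le b hM hα
  refine le_trans ?_ hle
  let f : Q →+ Q := AddMonoidHom.mulLeft (p α)
  have h1 : Nat.card f.ker * Nat.card f.range = Nat.card Q := by
    rw [← AddSubgroup.index_ker f]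
    exact AddSubgroup.card_mul_index _
  have h2 : Nat.card f.range * f.range.index = Nat.card Q := AddSubgroup.card_mul_index _
  have h3 : 0 < Nat.card f.range := Nat.card_pos
  have h4 : Nat.card f.ker = f.range.index := by
    have : Nat.card f.range * Nat.card f.ker = Nat.card f.range * f.range.index := by
      rw [h2, mul_comm, h1]
    exact Nat.eq_of_mul_eq_mul_left h3 this
  change Nat.card f.ker ≤ _
  rw [h4, ← AddSubgroup.index_comap_of_surjective f.range (f := p.toAddMonoidHom) hp]
  have h5 : (Ideal.span {α}).toAddSubgroup ≤ f.range.comap p.toAddMonoidHom := by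
    intro x hx
    obtain ⟨y, rfl⟩ := Ideal.mem_span_singleton'.1 hx
    refine ⟨p y, ?_⟩
    change p α * p y = p (y * α)
    rw [map_mul, mul_comm]
  have h6 : Nat.card (R ⧸ (Ideal.span {α})) = (Ideal.span {α}).toAddSubgroup.index := rfl
  rw [h6]
  have : (Ideal.span {α}).toAddSubgroup.FiniteIndex := by
    refine ⟨?_⟩
    rw [← h6]
    exact Nat.card_pos.ne'
  exact AddSubgroup.index_antitone h5

/-- The elements of norm at most `X`. -/
noncomputable def ball (X : ℕ) : Finset R :=
  (Fintype.piFinset (fun _ : Fin d => Finset.Icc (-(X : ℤ)) X)).map b.equivFun.symm.toEquiv.toEmbedding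

theorem mem_ball {X : ℕ} {x : R} : x ∈ ball b X ↔ nr b x ≤ X := by
  unfold ball
  rw [Finset.mem_map]
  constructor
  · rintro ⟨z, hz, rfl⟩
    rw [Fintype.mem_piFinset] at hz
    refine nn_le_of_abs fun i => ?_
    have h1 := hz i
    rw [Finset.mem_Icc] at h1
    change |b.equivFun (b.equivFun.symm z) i| ≤ _
    rw [LinearEquiv.apply_symm_apply]
    exact abs_le.2 h1
  · intro h
    refine ⟨b.equivFun x, ?_, ?_⟩
    · rw [Fintype.mem_piFinset]
      intro i
      rw [Finset.mem_Icc]
      have h1 := abs_le_nn (b.equivFun x) i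
      exact abs_le.1 (h1.trans (by exact_mod_cast h))
    · change b.equivFun.symm (b.equivFun x) = x
      rw [LinearEquiv.symm_apply_apply]

theorem card_ball (X : ℕ) : (ball b X).card = (2 * X + 1) ^ d := by
  rw [ball, Finset.card_map, Fintype.card_piFinset]
  simp only [Int.card_Icc, Finset.prod_const, Finset.card_univ, Fintype.card_fin]
  congr 1
  omega

open Classical in
/-- The pairs `(a, f)` for a given denominator. -/
theorem card_pairs_le [IsDomain R] [Fintype Q] (hp : Function.Surjective p) {M : ℕ}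
    (hM : MulBound b M) (hd : 1 ≤ d) {X : ℕ} {g : R} (hg : g ≠ 0) (hgX : nr b g ≤ X) :
    ((Finset.univ : Finset Q).filter (fun a => ∃ f, nr b f ≤ X ∧ p f = p g * a)).card ≤
      4 ^ d * (d.factorial * M ^ d) * X ^ d := by
  set K := Nat.card (killed p g) with hK
  set C₀ := d.factorial * M ^ d with hC₀
  have hC : ∀ k, d.factorial * (M * k) ^ d = C₀ * k ^ d := by
    intro k
    rw [mul_pow, hC₀, mul_assoc]
  have hKX : K ≤ C₀ * X ^ d := by
    refine (card_killed_le b p hp hM hg).trans ?_
    rw [hC]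
    exact Nat.mul_le_mul_left _ (Nat.pow_le_pow_left hgX _)
  have hK1 : 1 ≤ K := Nat.card_pos
  let F : Finset R := (ball b X).filter (fun f => ∃ a, p f = p g * a)
  -- the numerators are separated
  have hsep : ∀ f ∈ F, ∀ f' ∈ F, f ≠ f' → K ≤ C₀ * nr b (f - f') ^ d := by
    intro f hf f' hf' hne
    obtain ⟨-, a, ha⟩ := Finset.mem_filter.1 hf
    obtain ⟨-, a', ha'⟩ := Finset.mem_filter.1 hf'
    rw [← hC]
    refine le_trans ?_ (card_killed_le b p hp hM (sub_ne_zero.2 hne))
    apply Nat.card_le_card_of_injective (AddSubgroup.inclusion ?_) (AddSubgroup.inclusion_injective _)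
    intro c hc
    rw [mem_killed] at hc ⊢
    rw [map_sub, ha, ha', ← mul_sub]
    calc p g * (a - a') * c = (a - a') * (p g * c) := by ring
      _ = 0 := by rw [hc, mul_zero]
  -- the fibres
  have hfib : ∀ f ∈ F, ((Finset.univ : Finset Q).filter (fun a => p f = p g * a)).card ≤ K := by
    intro f hf
    obtain ⟨-, a₀, ha₀⟩ := Finset.mem_filter.1 hf
    rw [hK, Nat.card_eq_fintype_card, ← Fintype.card_coe]
    apply Fintype.card_le_of_injective
      (fun a : ((Finset.univ : Finset Q).filter (fun a => p f = p g * a)) =>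
        (⟨a - a₀, by
          have h1 := (Finset.mem_filter.1 a.2).2
          rw [mem_killed, mul_sub, ← h1, ha₀, sub_self]⟩ : killed p g))
    intro x y hxy
    have h1 := congrArg Subtype.val hxy
    exact Subtype.ext (sub_left_injective h1)
  have hsub : (Finset.univ : Finset Q).filter (fun a => ∃ f, nr b f ≤ X ∧ p f = p g * a) ⊆
      F.biUnion (fun f => (Finset.univ : Finset Q).filter (fun a => p f = p g * a)) := by
    intro a ha
    obtain ⟨-, f, hf, hfa⟩ := Finset.mem_filter.1 ha
    rw [Finset.mem_biUnion]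
    exact ⟨f, Finset.mem_filter.2 ⟨(mem_ball b).2 hf, a, hfa⟩,
      Finset.mem_filter.2 ⟨Finset.mem_univ _, hfa⟩⟩
  have h1 := (Finset.card_le_card hsub).trans Finset.card_biUnion_le
  have h2 := h1.trans (Finset.sum_le_card_nsmul _ _ _ hfib)
  rw [smul_eq_mul] at h2
  refine h2.trans ?_
  -- the number of numerators
  have hex : ∃ ℓ, K ≤ C₀ * ℓ ^ d := ⟨X, hKX⟩
  obtain ⟨ℓ, hℓ, hmin⟩ : ∃ ℓ, K ≤ C₀ * ℓ ^ d ∧ ∀ k, K ≤ C₀ * k ^ d → ℓ ≤ k :=
    ⟨Nat.find hex, Nat.find_spec hex, fun k hk => Nat.find_min' hex hk⟩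
  have hℓ1 : 1 ≤ ℓ := by
    rcases Nat.eq_zero_or_pos ℓ with h0 | h0
    · rw [h0, zero_pow (by omega), mul_zero] at hℓ
      omega
    · exact h0
  have hℓX : ℓ ≤ X := hmin X hKX
  have hFcard : F.card ≤ (2 * (X / ℓ) + 2) ^ d := by
    have h3 := card_separated_le (ι := Fin d) hℓ1 (X := X) (F.map b.equivFun.toEquiv.toEmbedding) (by
        intro z hz
        obtain ⟨f, hf, rfl⟩ := Finset.mem_map.1 hz
        exact (mem_ball b).1 (Finset.mem_filter.1 hf).1) (by
        intro z hz w hw hne
        obtain ⟨f, hf, rfl⟩ := Finset.mem_map.1 hz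
        obtain ⟨f', hf', rfl⟩ := Finset.mem_map.1 hw
        have h4 := hmin _ (hsep f hf f' hf' (fun h => hne (by rw [h])))
        rw [nr_sub_eq] at h4
        exact h4)
    rw [Finset.card_map, Fintype.card_fin] at h3
    exact h3
  have hq : 1 ≤ X / ℓ := (Nat.one_le_div_iff hℓ1).2 hℓX
  have hF2 : F.card ≤ (4 * (X / ℓ)) ^ d := hFcard.trans (Nat.pow_le_pow_left (by omega) _)
  calc F.card * K ≤ (4 * (X / ℓ)) ^ d * (C₀ * ℓ ^ d) := Nat.mul_le_mul hF2 hℓ
    _ = 4 ^ d * C₀ * (X / ℓ * ℓ) ^ d := by rw [mul_pow, mul_pow]; ring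
    _ ≤ 4 ^ d * C₀ * X ^ d := Nat.mul_le_mul_left _ (Nat.pow_le_pow_left (Nat.div_mul_le_self _ _) _)

open Classical in
/-- **The number of residues which are short fractions.** -/
theorem card_short_le [IsDomain R] [Fintype Q] (hp : Function.Surjective p) {M : ℕ}
    (hM : MulBound b M) (hd : 1 ≤ d) {X : ℕ} (hX : 1 ≤ X) :
    ((Finset.univ : Finset Q).filter (fun a => ∃ f g, ¬ (f = 0 ∧ g = 0) ∧ nr b f ≤ X ∧
      nr b g ≤ X ∧ p f = p g * a)).card ≤ 12 ^ d * (d.factorial * M ^ d) * X ^ (2 * d) := by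
  have h3X : (2 * X + 1) ^ d ≤ (3 * X) ^ d := Nat.pow_le_pow_left (by omega) _
  by_cases h : ∃ f, f ≠ 0 ∧ nr b f ≤ X ∧ p f = 0
  · obtain ⟨f, hf0, hfX, hf⟩ := h
    have h1 := card_killed_le b p hp hM hf0
    have h2 : killed p f = ⊤ := by
      rw [eq_top_iff]
      intro a _
      rw [mem_killed, hf, zero_mul]
    rw [h2] at h1
    have h3 : Fintype.card Q ≤ d.factorial * (M * nr b f) ^ d := by
      rw [← Nat.card_eq_fintype_card]
      refine le_trans (le_of_eq ?_) h1
      exact (Nat.card_congr AddSubgroup.topEquiv.toEquiv).symm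
    refine (Finset.card_filter_le _ _).trans ?_
    rw [Finset.card_univ]
    refine h3.trans ?_
    have h4 : 1 ≤ 12 ^ d * X ^ d := Nat.mul_pos (Nat.pow_pos (by omega)) (Nat.pow_pos hX)
    calc d.factorial * (M * nr b f) ^ d ≤ d.factorial * (M * X) ^ d :=
          Nat.mul_le_mul_left _ (Nat.pow_le_pow_left (Nat.mul_le_mul_left _ hfX) _)
      _ = (d.factorial * M ^ d * X ^ d) * 1 := by rw [mul_pow]; ring
      _ ≤ (d.factorial * M ^ d * X ^ d) * (12 ^ d * X ^ d) := Nat.mul_le_mul_left _ h4
      _ = _ := by ring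
  · push Not at h
    have hsub : (Finset.univ : Finset Q).filter (fun a => ∃ f g, ¬ (f = 0 ∧ g = 0) ∧ nr b f ≤ X ∧
        nr b g ≤ X ∧ p f = p g * a) ⊆ (ball b X).biUnion (fun g => if g = 0 then ∅ else
          (Finset.univ : Finset Q).filter (fun a => ∃ f, nr b f ≤ X ∧ p f = p g * a)) := by
      intro a ha
      obtain ⟨-, f, g, hne, hf, hg, hfa⟩ := Finset.mem_filter.1 ha
      have hg0 : g ≠ 0 := by
        rintro rfl
        rw [map_zero, zero_mul] at hfa
        exact h f (fun h0 => hne ⟨h0, rfl⟩) hf hfa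
      rw [Finset.mem_biUnion]
      refine ⟨g, (mem_ball b).2 hg, ?_⟩
      rw [if_neg hg0]
      exact Finset.mem_filter.2 ⟨Finset.mem_univ _, f, hf, hfa⟩
    have h1 := (Finset.card_le_card hsub).trans Finset.card_biUnion_le
    refine h1.trans ?_
    have h2 : ∀ g ∈ ball b X, (if g = 0 then (∅ : Finset Q) else
        (Finset.univ : Finset Q).filter (fun a => ∃ f, nr b f ≤ X ∧ p f = p g * a)).card ≤
          4 ^ d * (d.factorial * M ^ d) * X ^ d := by
      intro g hg
      split
      · simp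
      · next hg0 => exact card_pairs_le b p hp hM hd hg0 ((mem_ball b).1 hg)
    refine (Finset.sum_le_card_nsmul _ _ _ h2).trans ?_
    rw [card_ball, smul_eq_mul]
    calc (2 * X + 1) ^ d * (4 ^ d * (d.factorial * M ^ d) * X ^ d) ≤
          (3 * X) ^ d * (4 ^ d * (d.factorial * M ^ d) * X ^ d) := Nat.mul_le_mul_right _ h3X
      _ = (3 * 4) ^ d * (d.factorial * M ^ d) * X ^ (2 * d) := by
          rw [mul_pow, mul_pow, pow_mul', sq]
          ring

end Finite

end Pool.Agent.U94.NA
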