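import Mathlib

/-!
# Expansions with respect to an element of a ring, and the complexity of finite sequences
-/

set_option autoImplicit false

namespace Pool.Agent.U94.NA

variable {R : Type} [CommRing R]

/-- `g` is invertible modulo `π`. -/
def InvMod (π g : R) : Prop := ∃ h, π ∣ g * h - 1

/-- The infinite sequence `s` over the digits `0, …, N - 1` is the `π`-adic expansion of `f / g`:
the element `g` is invertible modulo `π` and `g · (s₀ + s₁ π + ⋯ + s_{n-1} π^{n-1})` is congruent
to `f` modulo `π ^ n` for all `n`. -/
def IsExpansion (π : R) {N : ℕ} (f g : R) (s : ℕ → Fin N) : Prop :=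
  InvMod π g ∧ ∀ n : ℕ, π ^ n ∣ g * (∑ i ∈ Finset.range n, ((s i : ℕ) : R) * π ^ i) - f

/-- The sizes `max (φ f) (φ g)` of the fractions `f / g` whose `π`-adic expansion begins with the
finite sequence `a`. -/
def sizes (π : R) (φ : R → ℝ) {N n : ℕ} (a : Fin n → Fin N) : Set ℝ :=
  {x | ∃ (f g : R) (s : ℕ → Fin N), IsExpansion π f g s ∧ (∀ i : Fin n, s i = a i) ∧
    x = max (φ f) (φ g)}

/-- The least size of a fraction whose `π`-adic expansion begins with the finite sequence `a`. -/
noncomputable def finComplexity (π : R) (φ : R → ℝ) {N n : ℕ} (a : Fin n → Fin N) : ℝ :=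
  sInf (sizes π φ a)

/-- The average of the complexity over all sequences of length `n`. -/
noncomputable def average (π : R) (φ : R → ℝ) (N n : ℕ) : ℝ :=
  (∑ a : Fin n → Fin N, finComplexity π φ a) / (N : ℝ) ^ n

end Pool.Agent.U94.NA
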