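import Pool.Agent.U94.NA.Defs
import Pool.Agent.U94.NA.Average

/-!
# Digits
-/

set_option autoImplicit false

namespace Pool.Agent.U94.NA

open Finset Module

variable {R : Type} [CommRing R]

/-- The value of a block of digits. -/
def blockValue (π : R) {N n : ℕ} (a : Fin n → Fin N) : R := ∑ i, ((a i : ℕ) : R) * π ^ (i : ℕ)

theorem blockValue_succ (π : R) {N n : ℕ} (a : Fin (n + 1) → Fin N) :
    blockValue π a = ((a 0 : ℕ) : R) + π * blockValue π (Fin.tail a) := by
  simp only [blockValue, Fin.sum_univ_succ, Fin.tail, Finset.mul_sum, Fin.val_zero, pow_zero,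
    mul_one, Fin.val_succ]
  congr 1
  refine Finset.sum_congr rfl fun i _ => ?_
  ring

/-- The numbers `0, …, N - 1` represent the residue classes modulo `π`. -/
structure DigitSystem (π : R) (N : ℕ) : Prop where
  ne_zero : π ≠ 0
  exists_digit : ∀ x : R, ∃ c : Fin N, π ∣ x - ((c : ℕ) : R)
  digit_unique : ∀ c c' : Fin N, π ∣ ((c : ℕ) : R) - ((c' : ℕ) : R) → c = c'

variable {π : R} {N : ℕ}

theorem exists_block (h : DigitSystem π N) : ∀ (n : ℕ) (x : R),
    ∃ a : Fin n → Fin N, π ^ n ∣ x - blockValue π a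
  | 0, x => ⟨Fin.elim0, by simp⟩
  | n + 1, x => by
    obtain ⟨c, y, hy⟩ := h.exists_digit x
    obtain ⟨a, ha⟩ := exists_block h n y
    refine ⟨Fin.cons c a, ?_⟩
    rw [blockValue_succ, Fin.tail_cons, Fin.cons_zero]
    have h1 : x - (((c : ℕ) : R) + π * blockValue π a) = π * (y - blockValue π a) := by
      rw [mul_sub, ← hy]
      ring
    rw [h1, pow_succ, mul_comm (π ^ n)]
    exact mul_dvd_mul_left _ ha

theorem block_unique [IsDomain R] (h : DigitSystem π N) : ∀ (n : ℕ) (a a' : Fin n → Fin N),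
    π ^ n ∣ blockValue π a - blockValue π a' → a = a'
  | 0, _, _, _ => Subsingleton.elim _ _
  | n + 1, a, a', hd => by
    rw [blockValue_succ, blockValue_succ] at hd
    have h0 : a 0 = a' 0 := by
      apply h.digit_unique
      have h1 := (dvd_pow_self π (Nat.succ_ne_zero n)).trans hd
      have h2 : ((a 0 : ℕ) : R) - ((a' 0 : ℕ) : R) =
          (((a 0 : ℕ) : R) + π * blockValue π (Fin.tail a) -
            (((a' 0 : ℕ) : R) + π * blockValue π (Fin.tail a'))) -
          π * (blockValue π (Fin.tail a) - blockValue π (Fin.tail a')) := by ring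
      rw [h2]
      exact dvd_sub h1 (dvd_mul_right _ _)
    have h1 : Fin.tail a = Fin.tail a' := by
      apply block_unique h n
      rw [h0] at hd
      have h2 : ((a' 0 : ℕ) : R) + π * blockValue π (Fin.tail a) -
            (((a' 0 : ℕ) : R) + π * blockValue π (Fin.tail a')) =
          π * (blockValue π (Fin.tail a) - blockValue π (Fin.tail a')) := by ring
      rw [h2, pow_succ, mul_comm (π ^ n)] at hd
      exact (mul_dvd_mul_iff_left h.ne_zero).1 hd
    rw [← Fin.cons_self_tail a, ← Fin.cons_self_tail a', h0, h1]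

theorem isCoprime_of_invMod {g : R} (hg : InvMod π g) : IsCoprime π g := by
  obtain ⟨h, k, hk⟩ := hg
  refine ⟨-k, h, ?_⟩
  have : g * h = 1 + π * k := by rw [← hk]; ring
  linear_combination this

/-- Every fraction has an expansion. -/
theorem exists_expansion (h : DigitSystem π N) (f : R) {g : R} (hg : InvMod π g) :
    ∃ s : ℕ → Fin N, IsExpansion π f g s := by
  have hstep : ∀ x : R, ∃ cy : Fin N × R, x - g * ((cy.1 : ℕ) : R) = π * cy.2 := by
    intro x
    obtain ⟨t, k, hk⟩ := hg
    obtain ⟨c, y, hy⟩ := h.exists_digit (x * t)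
    refine ⟨(c, g * y - x * k), ?_⟩
    have h1 : g * t = 1 + π * k := by rw [← hk]; ring
    have h2 : x * t = ((c : ℕ) : R) + π * y := by rw [← hy]; ring
    change x - g * ((c : ℕ) : R) = π * (g * y - x * k)
    linear_combination (-x) * h1 + g * h2
  choose step hst using hstep
  let st : ℕ → R := fun k => Nat.rec f (fun _ x => (step x).2) k
  have hst0 : st 0 = f := rfl
  have hst1 : ∀ k, st (k + 1) = (step (st k)).2 := fun k => rfl
  refine ⟨fun k => (step (st k)).1, hg, fun n => ?_⟩
  have key : ∀ n, f - g * (∑ i ∈ Finset.range n, (((step (st i)).1 : ℕ) : R) * π ^ i) =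
      π ^ n * st n := by
    intro n
    induction n with
    | zero => simp [hst0]
    | succ n ih =>
      rw [Finset.sum_range_succ, hst1, pow_succ]
      have h1 := hst (st n)
      linear_combination ih + π ^ n * h1
  refine ⟨-st n, ?_⟩
  have := key n
  linear_combination -this

theorem sum_range_eq_blockValue {n : ℕ} {a : Fin n → Fin N} {s : ℕ → Fin N}
    (hs : ∀ i : Fin n, s i = a i) :
    ∑ i ∈ Finset.range n, ((s i : ℕ) : R) * π ^ i = blockValue π a := by
  rw [blockValue, ← Fin.sum_univ_eq_sum_range (fun i => ((s i : ℕ) : R) * π ^ i)]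
  refine Finset.sum_congr rfl fun i _ => ?_
  rw [hs]

/-- A fraction begins with a given block if and only if a congruence holds. -/
theorem exists_expansion_iff [IsDomain R] (h : DigitSystem π N) (f g : R) {n : ℕ}
    (a : Fin n → Fin N) :
    (∃ s : ℕ → Fin N, IsExpansion π f g s ∧ ∀ i : Fin n, s i = a i) ↔
      InvMod π g ∧ π ^ n ∣ g * blockValue π a - f := by
  constructor
  · rintro ⟨s, hs, hsa⟩
    refine ⟨hs.1, ?_⟩
    have := hs.2 n
    rwa [sum_range_eq_blockValue hsa] at this
  · rintro ⟨hg, hd⟩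
    obtain ⟨s, hs⟩ := exists_expansion h f hg
    refine ⟨s, hs, ?_⟩
    have h1 := hs.2 n
    rw [sum_range_eq_blockValue (a := fun i : Fin n => s i) (fun _ => rfl)] at h1
    have h2 : π ^ n ∣ (blockValue π (fun i : Fin n => s i) - blockValue π a) * g := by
      have h3 := dvd_sub h1 hd
      have h4 : g * blockValue π (fun i : Fin n => s i) - f - (g * blockValue π a - f) =
          (blockValue π (fun i : Fin n => s i) - blockValue π a) * g := by ring
      rwa [h4] at h3
    have h3 := (isCoprime_of_invMod hg).pow_left.dvd_of_dvd_mul_right h2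
    have h4 := block_unique h n _ _ h3
    intro i
    exact congrFun h4 i

/-! ### The residue ring -/

theorem mk_eq_iff (n : ℕ) (f g x : R) :
    Ideal.Quotient.mk (Ideal.span {π ^ n}) f =
      Ideal.Quotient.mk (Ideal.span {π ^ n}) g * Ideal.Quotient.mk (Ideal.span {π ^ n}) x ↔
    π ^ n ∣ g * x - f := by
  rw [← map_mul, eq_comm, Ideal.Quotient.eq, Ideal.mem_span_singleton]

theorem block_bijective [IsDomain R] (h : DigitSystem π N) (n : ℕ) :
    Function.Bijective (fun a : Fin n → Fin N =>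
      Ideal.Quotient.mk (Ideal.span {π ^ n}) (blockValue π a)) := by
  constructor
  · intro a a' he
    apply block_unique h n
    rwa [← Ideal.mem_span_singleton, ← Ideal.Quotient.eq]
  · intro q
    obtain ⟨x, rfl⟩ := Ideal.Quotient.mk_surjective q
    obtain ⟨a, ha⟩ := exists_block h n x
    refine ⟨a, ?_⟩
    rw [eq_comm]
    rwa [← Ideal.mem_span_singleton, ← Ideal.Quotient.eq] at ha

theorem not_invMod_zero (h : DigitSystem π N) (hN : 2 ≤ N) : ¬ InvMod π 0 := by
  rintro ⟨t, ht⟩
  have h1 := h.digit_unique ⟨0, by omega⟩ ⟨1, by omega⟩ (by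
    simpa using ht)
  simp at h1

theorem invMod_one_sub (hπ : π ∣ (N : R)) (y : R) : InvMod π (1 - (N : R) * y) := by
  refine ⟨1, ?_⟩
  have : (1 - (N : R) * y) * 1 - 1 = (N : R) * (-y) := by ring
  rw [this]
  exact hπ.mul_right _

/-! ### The complexity and the shortest fractions -/

section Main

variable [IsDomain R] {d : ℕ} {b : Basis (Fin d) ℤ R} {φ : R → ℝ} {κ c : ℝ}

theorem log_mono {x y : ℕ} (h : x ≤ y) : Real.log x ≤ Real.log y := by
  rcases Nat.eq_zero_or_pos x with h0 | h0
  · subst h0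
    simp only [Nat.cast_zero, Real.log_zero]
    exact Real.log_natCast_nonneg y
  · exact Real.log_le_log (by exact_mod_cast h0) (by exact_mod_cast h)

omit [IsDomain R] in
theorem size_bounds (hκ : 0 ≤ κ) (hφ : ∀ x, κ * Real.log (nr b x) ≤ φ x ∧
    φ x ≤ κ * Real.log (nr b x) + c) (f g : R) :
    κ * Real.log (max (nr b f) (nr b g) : ℕ) ≤ max (φ f) (φ g) ∧
      max (φ f) (φ g) ≤ κ * Real.log (max (nr b f) (nr b g) : ℕ) + c := by
  constructor
  · rcases le_total (nr b f) (nr b g) with h | h
    · rw [max_eq_right h]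
      exact (hφ g).1.trans (le_max_right _ _)
    · rw [max_eq_left h]
      exact (hφ f).1.trans (le_max_left _ _)
  · refine max_le ?_ ?_
    · have := mul_le_mul_of_nonneg_left (log_mono (le_max_left (nr b f) (nr b g))) hκ
      linarith [(hφ f).2]
    · have := mul_le_mul_of_nonneg_left (log_mono (le_max_right (nr b f) (nr b g))) hκ
      linarith [(hφ g).2]

/-- The least size is attained. -/
theorem isLeast_finComplexity (h : DigitSystem π N) (hκ : 0 < κ)
    (hφ : ∀ x, κ * Real.log (nr b x) ≤ φ x ∧ φ x ≤ κ * Real.log (nr b x) + c) {n : ℕ}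
    (a : Fin n → Fin N) : IsLeast (sizes π φ a) (finComplexity π φ a) := by
  have hne : ∃ f g, InvMod π g ∧ π ^ n ∣ g * blockValue π a - f :=
    ⟨blockValue π a, 1, ⟨1, by simp⟩, by simp⟩
  obtain ⟨f₀, g₀, h0⟩ := hne
  set v := max (φ f₀) (φ g₀) with hv
  obtain ⟨K, hK⟩ := exists_nat_gt (Real.exp (v / κ))
  set P : Set (R × R) := {p | (InvMod π p.2 ∧ π ^ n ∣ p.2 * blockValue π a - p.1) ∧
    max (φ p.1) (φ p.2) ≤ v} with hP
  have hfin : P.Finite := by
    apply Set.Finite.subset ((ball b K ×ˢ ball b K : Finset (R × R)).finite_toSet)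
    rintro ⟨f, g⟩ ⟨-, h2⟩
    have h3 := (size_bounds hκ.le hφ f g).1.trans h2
    have h4 : (max (nr b f) (nr b g) : ℕ) ≤ K := by
      rcases Nat.eq_zero_or_pos (max (nr b f) (nr b g)) with h5 | h5
      · rw [h5]
        exact Nat.zero_le _
      · have h6 : Real.log (max (nr b f) (nr b g) : ℕ) ≤ v / κ := by
          rw [le_div_iff₀ hκ, mul_comm]
          exact h3
        have h7 : ((max (nr b f) (nr b g) : ℕ) : ℝ) ≤ Real.exp (v / κ) := by
          rwa [← Real.log_le_iff_le_exp (by exact_mod_cast h5)]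
        have h8 : ((max (nr b f) (nr b g) : ℕ) : ℝ) < K := h7.trans_lt hK
        exact_mod_cast h8.le
    rw [Finset.mem_coe, Finset.mem_product]
    exact ⟨(mem_ball b).2 ((le_max_left _ _).trans h4), (mem_ball b).2 ((le_max_right _ _).trans h4)⟩
  have hne : P.Nonempty := ⟨(f₀, g₀), h0, le_rfl⟩
  obtain ⟨⟨f, g⟩, hfg, hmin⟩ := Set.exists_min_image P (fun p => max (φ p.1) (φ p.2)) hfin hne
  have hleast : IsLeast (sizes π φ a) (max (φ f) (φ g)) := by
    constructor
    · obtain ⟨s, hs, hsa⟩ := (exists_expansion_iff h f g a).2 hfg.1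
      exact ⟨f, g, s, hs, hsa, rfl⟩
    · rintro x ⟨f', g', s, hs, hsa, rfl⟩
      have h1 := (exists_expansion_iff h f' g' a).1 ⟨s, hs, hsa⟩
      by_cases h2 : max (φ f') (φ g') ≤ v
      · exact hmin (f', g') ⟨h1, h2⟩
      · push Not at h2
        exact hfg.2.trans h2.le
  have : finComplexity π φ a = max (φ f) (φ g) := hleast.csInf_eq
  rw [this]
  exact hleast

/-- The complexity is comparable to the logarithm of the norm of the shortest fraction. -/
theorem finComplexity_bounds (h : DigitSystem π N) (hκ : 0 < κ)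
    (hφ : ∀ x, κ * Real.log (nr b x) ≤ φ x ∧ φ x ≤ κ * Real.log (nr b x) + c) {n : ℕ}
    (a : Fin n → Fin N) :
    κ * Real.log (minFrac b (Ideal.Quotient.mk (Ideal.span {π ^ n})) (InvMod π)
        (Ideal.Quotient.mk (Ideal.span {π ^ n}) (blockValue π a))) ≤ finComplexity π φ a ∧
      finComplexity π φ a ≤ κ * Real.log (minFrac b (Ideal.Quotient.mk (Ideal.span {π ^ n}))
        (InvMod π) (Ideal.Quotient.mk (Ideal.span {π ^ n}) (blockValue π a))) + c := by
  have hl := isLeast_finComplexity h hκ hφ a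
  constructor
  · obtain ⟨f, g, s, hs, hsa, he⟩ := hl.1
    have h1 := (exists_expansion_iff h f g a).1 ⟨s, hs, hsa⟩
    rw [he]
    refine le_trans ?_ (size_bounds hκ.le hφ f g).1
    apply mul_le_mul_of_nonneg_left _ hκ.le
    apply log_mono
    exact minFrac_le (b := b) h1.1 ((mk_eq_iff n f g _).2 h1.2)
  · obtain ⟨f, g, hg, hfg, he⟩ := minFrac_spec (b := b)
      (p := Ideal.Quotient.mk (Ideal.span {π ^ n})) Ideal.Quotient.mk_surjective
      (Adm := InvMod π) ⟨1, by simp⟩ (Ideal.Quotient.mk (Ideal.span {π ^ n}) (blockValue π a))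
    rw [← he]
    refine le_trans (hl.2 ?_) (size_bounds hκ.le hφ f g).2
    obtain ⟨s, hs, hsa⟩ := (exists_expansion_iff h f g a).2 ⟨hg, (mk_eq_iff n f g _).1 hfg⟩
    exact ⟨f, g, s, hs, hsa, rfl⟩

/-- **The average complexity of finite sequences.** -/
theorem average_bounds (h : DigitSystem π N) (hN : 2 ≤ N) (hπ : π ∣ (N : R)) {M : ℕ}
    (hM : MulBound b M) (hd : 1 ≤ d) (hκ : 0 < κ)
    (hφ : ∀ x, κ * Real.log (nr b x) ≤ φ x ∧ φ x ≤ κ * Real.log (nr b x) + c) (n : ℕ) :
    |average π φ N n - κ * (n * Real.log N / (2 * d))| ≤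
      κ * (Real.log ((4 * (2 * d)) ^ (2 * d) * N) +
        (2 * d) * (2 * Real.log 2 * (12 ^ d * (d.factorial * M ^ d)))) + c := by
  classical
  set I : Ideal R := Ideal.span {π ^ n} with hI
  let _ : Fintype (R ⧸ I) := Fintype.ofBijective _ (block_bijective h n)
  have hcard : Fintype.card (R ⧸ I) = N ^ n := by
    rw [← Fintype.card_of_bijective (block_bijective h n)]
    simp
  have hmain := avg_minFrac (b := b) (p := Ideal.Quotient.mk I) Ideal.Quotient.mk_surjective hM hd
    (by omega : 1 ≤ N) (Adm := InvMod π) (fun y => invMod_one_sub hπ y) (not_invMod_zero h hN)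
  rw [hcard] at hmain
  set F : (R ⧸ I) → ℝ := fun q => Real.log (minFrac b (Ideal.Quotient.mk I) (InvMod π) q) with hF
  have hsum : ∑ q : R ⧸ I, F q = ∑ a : Fin n → Fin N, F (Ideal.Quotient.mk I (blockValue π a)) :=
    (Function.Bijective.sum_comp (block_bijective h n) F).symm
  have hNn : (0 : ℝ) < (N : ℝ) ^ n := by positivity
  have hb : ∀ a : Fin n → Fin N, κ * F (Ideal.Quotient.mk I (blockValue π a)) ≤
      finComplexity π φ a ∧ finComplexity π φ a ≤
        κ * F (Ideal.Quotient.mk I (blockValue π a)) + c := fun a => finComplexity_bounds h hκ hφ a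
  have h1 := Finset.sum_le_sum (fun a (_ : a ∈ (Finset.univ : Finset (Fin n → Fin N))) => (hb a).1)
  have h2 := Finset.sum_le_sum (fun a (_ : a ∈ (Finset.univ : Finset (Fin n → Fin N))) => (hb a).2)
  rw [← Finset.mul_sum, ← hsum] at h1
  rw [Finset.sum_add_distrib, ← Finset.mul_sum, ← hsum, Finset.sum_const, Finset.card_univ,
    Fintype.card_fun, Fintype.card_fin, Fintype.card_fin, nsmul_eq_mul] at h2
  set S := ∑ q : R ⧸ I, F q with hS
  set T := ∑ a : Fin n → Fin N, finComplexity π φ a with hT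
  have hmain' : |S / (N : ℝ) ^ n - n * Real.log N / (2 * d)| ≤
      Real.log ((4 * (2 * d)) ^ (2 * d) * N) +
        (2 * d) * (2 * Real.log 2 * (12 ^ d * (d.factorial * M ^ d))) := by
    have h3 : Real.log ((N ^ n : ℕ) : ℝ) = n * Real.log N := by
      push_cast
      rw [Real.log_pow]
    rw [h3] at hmain
    push_cast at hmain
    exact hmain
  have hc : 0 ≤ c := by
    have := hφ 1
    linarith [this.1, this.2]
  have h3 : κ * (S / (N : ℝ) ^ n) ≤ T / (N : ℝ) ^ n := by
    rw [← mul_div_assoc]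
    exact div_le_div_of_nonneg_right h1 hNn.le
  have h4 : T / (N : ℝ) ^ n ≤ κ * (S / (N : ℝ) ^ n) + c := by
    rw [div_le_iff₀ hNn, add_mul, mul_assoc, div_mul_cancel₀ _ hNn.ne']
    push_cast at h2
    linarith
  have h5 := mul_le_mul_of_nonneg_left (abs_le.1 hmain').1 hκ.le
  have h6 := mul_le_mul_of_nonneg_left (abs_le.1 hmain').2 hκ.le
  rw [abs_le]
  unfold average
  rw [← hT]
  constructor <;> nlinarith

end Main

end Pool.Agent.U94.NA
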