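import Mathlib

/-!
# Short vectors in lattices

Elementary facts about the points of a subgroup of `ℤ^m` of finite index in large boxes.
-/

set_option autoImplicit false

namespace Pool.Agent.U94.NA

open Finset

variable {ι : Type} [Fintype ι]

/-- The maximum of the absolute values of the coordinates. -/
def nn (z : ι → ℤ) : ℕ := Finset.univ.sup (fun i => (z i).natAbs)

theorem nn_le_iff {z : ι → ℤ} {X : ℕ} : nn z ≤ X ↔ ∀ i, (z i).natAbs ≤ X := by
  simp [nn, Finset.sup_le_iff]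

theorem natAbs_le_nn (z : ι → ℤ) (i : ι) : (z i).natAbs ≤ nn z := nn_le_iff.1 le_rfl i

theorem abs_le_nn (z : ι → ℤ) (i : ι) : |z i| ≤ nn z := by
  have := natAbs_le_nn z i
  rw [Int.abs_eq_natAbs]
  exact_mod_cast this

theorem nn_le_of_abs {z : ι → ℤ} {X : ℕ} (h : ∀ i, |z i| ≤ X) : nn z ≤ X := by
  rw [nn_le_iff]
  intro i
  have := h i
  rw [Int.abs_eq_natAbs] at this
  exact_mod_cast this

theorem nn_zero : nn (0 : ι → ℤ) = 0 := by
  have : nn (0 : ι → ℤ) ≤ 0 := nn_le_iff.2 (by simp)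
  omega

theorem nn_eq_zero {z : ι → ℤ} : nn z = 0 ↔ z = 0 := by
  constructor
  · intro h
    funext i
    have := natAbs_le_nn z i
    rw [h] at this
    simpa using this
  · rintro rfl
    exact nn_zero

theorem nn_neg (z : ι → ℤ) : nn (-z) = nn z := by
  simp [nn]

theorem nn_add_le (z w : ι → ℤ) : nn (z + w) ≤ nn z + nn w := by
  refine nn_le_iff.2 fun i => ?_
  have h1 := natAbs_le_nn z i
  have h2 := natAbs_le_nn w i
  have h3 : ((z + w) i).natAbs ≤ (z i).natAbs + (w i).natAbs := Int.natAbs_add_le _ _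
  omega

/-- Integer points of the box with centre `0`. -/
theorem card_box_le [DecidableEq ι] (X : ℕ) (S : Finset (ι → ℤ)) (hS : ∀ z ∈ S, nn z ≤ X) :
    S.card ≤ (2 * X + 1) ^ Fintype.card ι := by
  have h1 : S ⊆ Fintype.piFinset (fun _ : ι => Finset.Icc (-(X : ℤ)) X) := by
    intro z hz
    rw [Fintype.mem_piFinset]
    intro i
    rw [Finset.mem_Icc]
    have h2 := abs_le_nn z i
    have h3 := hS z hz
    have h4 : |z i| ≤ X := h2.trans (by exact_mod_cast h3)
    exact abs_le.1 h4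
  refine (Finset.card_le_card h1).trans ?_
  rw [Fintype.card_piFinset]
  simp only [Int.card_Icc, Finset.prod_const, Finset.card_univ]
  apply Nat.pow_le_pow_left
  omega

/-- **Packing.** A set of integer points in a box with pairwise distances at least `ℓ`. -/
theorem card_separated_le [DecidableEq ι] {X ℓ : ℕ} (hℓ : 1 ≤ ℓ) (S : Finset (ι → ℤ))
    (hS : ∀ z ∈ S, nn z ≤ X) (hsep : ∀ z ∈ S, ∀ w ∈ S, z ≠ w → ℓ ≤ nn (z - w)) :
    S.card ≤ (2 * (X / ℓ) + 2) ^ Fintype.card ι := by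
  have hℓ' : (0 : ℤ) < ℓ := by exact_mod_cast hℓ
  let F : (ι → ℤ) → (ι → ℤ) := fun z i => z i / ℓ
  have hmaps : ∀ z ∈ S, F z ∈ Fintype.piFinset (fun _ : ι => Finset.Icc (-((X / ℓ : ℕ) : ℤ) - 1)
      ((X / ℓ : ℕ) : ℤ)) := by
    intro z hz
    rw [Fintype.mem_piFinset]
    intro i
    have h4 : |z i| ≤ X := (abs_le_nn z i).trans (by exact_mod_cast hS z hz)
    rw [abs_le] at h4
    rw [Finset.mem_Icc]
    have hX : (X : ℤ) < (((X / ℓ : ℕ) : ℤ) + 1) * ℓ := by
      have := Nat.lt_div_mul_add (a := X) (b := ℓ) hℓ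
      have h5 : (X : ℤ) < ((X / ℓ * ℓ + ℓ : ℕ) : ℤ) := by exact_mod_cast this
      push_cast at h5 ⊢
      linarith
    constructor
    · rw [Int.le_ediv_iff_mul_le hℓ']
      nlinarith
    · have : z i / (ℓ : ℤ) < ((X / ℓ : ℕ) : ℤ) + 1 := by
        rw [Int.ediv_lt_iff_lt_mul hℓ']
        linarith
      exact Int.lt_add_one_iff.1 this
  have hinj : Set.InjOn F S := by
    intro z hz w hw hzw
    by_contra hne
    have h1 := hsep z hz w hw hne
    have h2 : nn (z - w) ≤ ℓ - 1 := by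
      refine nn_le_of_abs fun i => ?_
      have h3 : z i / ℓ = w i / ℓ := congrFun hzw i
      have h4 := Int.emod_add_mul_ediv (z i) ℓ
      have h5 := Int.emod_add_mul_ediv (w i) ℓ
      have h6 := Int.emod_nonneg (z i) hℓ'.ne'
      have h7 := Int.emod_nonneg (w i) hℓ'.ne'
      have h8 := Int.emod_lt_of_pos (z i) hℓ'
      have h9 := Int.emod_lt_of_pos (w i) hℓ'
      rw [h3] at h4
      have h10 : (z - w) i = z i % ℓ - w i % ℓ := by
        rw [Pi.sub_apply]
        linarith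
      rw [h10, abs_le]
      push_cast [hℓ]
      constructor <;> linarith
    omega
  have h1 := Finset.card_le_card_of_injOn F hmaps hinj
  refine h1.trans ?_
  rw [Fintype.card_piFinset]
  simp only [Int.card_Icc, Finset.prod_const, Finset.card_univ]
  apply Nat.pow_le_pow_left
  omega

/-- **Pigeonhole.** A homomorphism from `ℤ^m` to a finite group has many short vectors in its
kernel. -/
theorem exists_many [DecidableEq ι] {Q : Type} [AddCommGroup Q] [Fintype Q] (φ : (ι → ℤ) →+ Q)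
    {X k : ℕ} (hk : Fintype.card Q * k ≤ (X + 1) ^ Fintype.card ι) :
    ∃ S : Finset (ι → ℤ), k ≤ S.card ∧ ∀ z ∈ S, φ z = 0 ∧ nn z ≤ X := by
  classical
  let B : Finset (ι → ℤ) := Fintype.piFinset (fun _ : ι => Finset.Icc (0 : ℤ) X)
  have hB : B.card = (X + 1) ^ Fintype.card ι := by
    rw [Fintype.card_piFinset]
    simp
  obtain ⟨y, -, hy⟩ := Finset.exists_le_card_fiber_of_mul_le_card_of_maps_to
    (s := B) (t := (Finset.univ : Finset Q)) (f := φ) (n := k) (fun _ _ => Finset.mem_univ _)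
    ⟨0, Finset.mem_univ _⟩ (by rw [hB, Finset.card_univ]; exact hk)
  rcases (B.filter (fun z => φ z = y)).eq_empty_or_nonempty with h | ⟨z₀, hz₀⟩
  · rw [h] at hy
    exact ⟨∅, hy, by simp⟩
  · refine ⟨(B.filter (fun z => φ z = y)).image (fun z => z - z₀), ?_, ?_⟩
    · rw [Finset.card_image_of_injective _ (sub_left_injective)]
      exact hy
    · intro w hw
      obtain ⟨z, hz, rfl⟩ := Finset.mem_image.1 hw
      obtain ⟨h1, h2⟩ := Finset.mem_filter.1 hz
      obtain ⟨h3, h4⟩ := Finset.mem_filter.1 hz₀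
      refine ⟨by rw [map_sub, h2, h4, sub_self], nn_le_of_abs fun i => ?_⟩
      have h5 := Finset.mem_Icc.1 (Fintype.mem_piFinset.1 h1 i)
      have h6 := Finset.mem_Icc.1 (Fintype.mem_piFinset.1 h3 i)
      rw [Pi.sub_apply, abs_le]
      constructor <;> linarith

/-- A vector as a vector of rational numbers. -/
def toQ (z : ι → ℤ) : ι → ℚ := fun i => z i

/-- **Reduction.** If integer vectors of norm at most `X` span `ℚ^m`, then every integer vector is
congruent to a short one modulo `N` times the group generated by them. -/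
theorem exists_reduced (T : Set (ι → ℤ)) {X : ℕ} (hT : ∀ z ∈ T, nn z ≤ X)
    (hspan : Submodule.span ℚ (toQ '' T) = ⊤) {N : ℕ} (hN : 1 ≤ N) (v : ι → ℤ) :
    ∃ w ∈ AddSubgroup.closure T, nn (v - (N : ℤ) • w) ≤ Fintype.card ι * (N * X) := by
  classical
  obtain ⟨b, hb, hb1, hb2⟩ := exists_linearIndependent ℚ (toQ '' T)
  rw [hspan] at hb1
  let B : Module.Basis b ℚ (ι → ℚ) := Module.Basis.mk hb2 (by rw [Subtype.range_coe, hb1])
  have hfin : Finite b := Module.Finite.finite_basis B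
  have := Fintype.ofFinite b
  have hcard : Fintype.card b = Fintype.card ι := by
    rw [← Module.finrank_eq_card_basis B, Module.finrank_fintype_fun_eq_card]
  have hz : ∀ x : b, ∃ z ∈ T, toQ z = x := fun x => hb x.2
  choose z hzT hz' using hz
  let t : b → ℚ := B.repr (toQ v)
  have hv : ∑ x, t x • (toQ (z x)) = toQ v := by
    have h1 := B.sum_repr (toQ v)
    have h2 : ∀ x, B x = toQ (z x) := by
      intro x
      rw [hz', Module.Basis.mk_apply]
    simp only [h2] at h1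
    exact h1
  let q : b → ℤ := fun x => ⌊t x / N⌋
  have hN' : (0 : ℚ) < N := by exact_mod_cast hN
  refine ⟨∑ x, q x • z x, ?_, ?_⟩
  · refine AddSubgroup.sum_mem _ fun x _ => AddSubgroup.zsmul_mem _ ?_ _
    exact AddSubgroup.subset_closure (hzT x)
  · refine nn_le_of_abs fun i => ?_
    have h1 : (((v - (N : ℤ) • ∑ x, q x • z x) i : ℤ) : ℚ) = ∑ x, (t x - N * q x) * (z x i : ℚ) := by
      have h2 : (v i : ℚ) = ∑ x, t x * (z x i : ℚ) := by
        have h3 := congrFun hv i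
        simp only [Finset.sum_apply, Pi.smul_apply, smul_eq_mul, toQ] at h3
        exact h3.symm
      have h4 : (v - (N : ℤ) • ∑ x, q x • z x) i = v i - N * ∑ x, q x * z x i := by
        simp [Finset.sum_apply]
      rw [h4]
      push_cast
      rw [h2, Finset.mul_sum, ← Finset.sum_sub_distrib]
      refine Finset.sum_congr rfl fun x _ => ?_
      ring
    have h2 : |(((v - (N : ℤ) • ∑ x, q x • z x) i : ℤ) : ℚ)| ≤ Fintype.card ι * (N * X) := by
      rw [h1]
      refine (Finset.abs_sum_le_sum_abs _ _).trans ?_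
      have h3 : ∀ x ∈ (Finset.univ : Finset b), |(t x - N * q x) * (z x i : ℚ)| ≤ N * X := by
        intro x _
        rw [abs_mul]
        have h4 : |t x - N * q x| ≤ N := by
          have h5 := Int.floor_le (t x / N)
          have h6 := Int.lt_floor_add_one (t x / N)
          rw [le_div_iff₀ hN'] at h5
          rw [div_lt_iff₀ hN'] at h6
          rw [abs_le]
          constructor
          · change (q x : ℚ) * N ≤ t x at h5
            linarith
          · change t x < ((q x : ℚ) + 1) * N at h6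
            linarith
        have h7 : |(z x i : ℚ)| ≤ X := by
          have h8 : |z x i| ≤ X := (abs_le_nn (z x) i).trans (by exact_mod_cast hT _ (hzT x))
          exact_mod_cast h8
        exact mul_le_mul h4 h7 (abs_nonneg _) hN'.le
      refine (Finset.sum_le_card_nsmul _ _ _ h3).trans ?_
      rw [nsmul_eq_mul, Finset.card_univ, hcard]
    exact_mod_cast h2

/-- **Spanning.** If the kernel has no very short vectors then the vectors in a large box span. -/
theorem span_of_large [DecidableEq ι] {Q : Type} [AddCommGroup Q] [Fintype Q]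
    (φ : (ι → ℤ) →+ Q) {m X ℓ μ : ℕ} (hm : Fintype.card ι = m + 1) (hℓ : 1 ≤ ℓ)
    (hμ : ∀ z, φ z = 0 → z ≠ 0 → μ ≤ nn z) (hℓμ : (m + 1) * (ℓ - 1) < μ)
    (hX : Fintype.card Q * ((2 * (X / ℓ) + 2) ^ m + 1) ≤ (X + 1) ^ (m + 1)) :
    Submodule.span ℚ (toQ '' {z : ι → ℤ | φ z = 0 ∧ nn z ≤ X}) = ⊤ := by
  classical
  by_contra hne
  obtain ⟨c, hc0, hc⟩ := Submodule.exists_le_ker_of_lt_top _ (lt_top_iff_ne_top.2 hne)
  -- coefficients of the functional
  let a : ι → ℚ := fun i => c (Pi.single i 1)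
  have hca : ∀ x : ι → ℚ, c x = ∑ i, a i * x i := by
    intro x
    conv_lhs => rw [← Finset.univ_sum_single x]
    rw [map_sum]
    refine Finset.sum_congr rfl fun i _ => ?_
    have : (Pi.single i (x i) : ι → ℚ) = x i • Pi.single i 1 := by
      rw [← Pi.single_smul, smul_eq_mul, mul_one]
    rw [this, map_smul, smul_eq_mul, mul_comm]
  have hne' : (Finset.univ : Finset ι).Nonempty := by
    rw [← Finset.card_pos, Finset.card_univ, hm]
    exact Nat.succ_pos _
  obtain ⟨j, -, hj⟩ := Finset.exists_max_image Finset.univ (fun i => |a i|) hne'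
  have hj0 : a j ≠ 0 := by
    intro h0
    apply hc0
    ext i
    have : |a i| ≤ 0 := by
      have := hj i (Finset.mem_univ _)
      rwa [h0, abs_zero] at this
    have h2 : a i = 0 := by simpa using this
    simpa [a] using h2
  obtain ⟨S, hS1, hS2⟩ := exists_many φ (X := X) (k := (2 * (X / ℓ) + 2) ^ m + 1) (by rw [hm]; exact hX)
  have hS3 : ∀ z ∈ S, ∑ i, a i * (z i : ℚ) = 0 := by
    intro z hz
    have h1 : toQ z ∈ LinearMap.ker c := hc (Submodule.subset_span ⟨z, hS2 z hz, rfl⟩)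
    rw [LinearMap.mem_ker, hca] at h1
    exact h1
  -- project away the coordinate `j`
  let P : (ι → ℤ) → ({i // i ≠ j} → ℤ) := fun z i => z i
  have hsep : ∀ z ∈ S, ∀ w ∈ S, z ≠ w → ℓ ≤ nn (P z - P w) := by
    intro z hz w hw hzw
    by_contra hlt
    push Not at hlt
    have h1 : ∀ i, i ≠ j → |z i - w i| ≤ ((ℓ - 1 : ℕ) : ℤ) := by
      intro i hi
      have h2 := abs_le_nn (P z - P w) ⟨i, hi⟩
      have h3 : nn (P z - P w) ≤ ℓ - 1 := by omega
      exact h2.trans (by exact_mod_cast h3)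
    have h0 : ∑ i, a i * ((z i : ℚ) - w i) = 0 := by
      have h4 := hS3 z hz
      have h5 := hS3 w hw
      simp only [mul_sub, Finset.sum_sub_distrib, h4, h5, sub_zero]
    have h2 : |z j - w j| ≤ ((m * (ℓ - 1) : ℕ) : ℤ) := by
      rw [← Finset.add_sum_erase _ _ (Finset.mem_univ j)] at h0
      have h3 : a j * ((z j : ℚ) - w j) = -∑ i ∈ Finset.univ.erase j, a i * ((z i : ℚ) - w i) := by
        linarith
      have h4 : |a j| * |(z j : ℚ) - w j| ≤ |a j| * (m * ((ℓ - 1 : ℕ) : ℚ)) := by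
        rw [← abs_mul, h3, abs_neg]
        refine (Finset.abs_sum_le_sum_abs _ _).trans ?_
        have h5 : ∀ i ∈ Finset.univ.erase j, |a i * ((z i : ℚ) - w i)| ≤
            |a j| * ((ℓ - 1 : ℕ) : ℚ) := by
          intro i hi
          rw [abs_mul]
          refine mul_le_mul (hj i (Finset.mem_univ _)) ?_ (abs_nonneg _) (abs_nonneg _)
          have := h1 i (Finset.ne_of_mem_erase hi)
          exact_mod_cast this
        refine (Finset.sum_le_card_nsmul _ _ _ h5).trans ?_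
        rw [Finset.card_erase_of_mem (Finset.mem_univ _), Finset.card_univ, hm, nsmul_eq_mul]
        simp only [Nat.add_sub_cancel]
        apply le_of_eq
        ring
      have h6 := le_of_mul_le_mul_left h4 (abs_pos.2 hj0)
      have h7 : |z j - w j| ≤ (m : ℤ) * ((ℓ - 1 : ℕ) : ℤ) := by exact_mod_cast h6
      push_cast at h7 ⊢
      exact h7
    have h3 : z - w ≠ 0 := sub_ne_zero.2 hzw
    have h4 := hμ (z - w) (by rw [map_sub, (hS2 z hz).1, (hS2 w hw).1, sub_self]) h3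
    have h5 : nn (z - w) ≤ (m + 1) * (ℓ - 1) := by
      refine nn_le_of_abs fun i => ?_
      by_cases hi : i = j
      · subst hi
        refine h2.trans ?_
        exact_mod_cast Nat.mul_le_mul_right _ (Nat.le_succ m)
      · refine (h1 i hi).trans ?_
        exact_mod_cast Nat.le_mul_of_pos_left _ (Nat.succ_pos m)
    omega
  have hinj : Set.InjOn P S := by
    intro z hz w hw hzw
    by_contra hne
    have h1 := hsep z hz w hw hne
    rw [hzw, sub_self, nn_zero] at h1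
    omega
  have h1 := card_separated_le hℓ (X := X) (S.image P) (by
      intro y hy
      obtain ⟨z, hz, rfl⟩ := Finset.mem_image.1 hy
      exact nn_le_iff.2 fun i => (natAbs_le_nn z i).trans (hS2 z hz).2) (by
      intro y hy y' hy' hne
      obtain ⟨z, hz, rfl⟩ := Finset.mem_image.1 hy
      obtain ⟨w, hw, rfl⟩ := Finset.mem_image.1 hy'
      exact hsep z hz w hw (fun h => hne (by rw [h])))
  rw [Finset.card_image_of_injOn hinj] at h1
  have h2 : Fintype.card {i // i ≠ j} = m := by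
    rw [Fintype.card_subtype_compl, hm]
    simp
  rw [h2] at h1
  omega

/-- The kernel of a homomorphism to a group with `D` elements has a short vector. -/
theorem pow_lt_of_min [DecidableEq ι] {Q : Type} [AddCommGroup Q] [Fintype Q]
    (φ : (ι → ℤ) →+ Q) {μ : ℕ} (hμ1 : 1 ≤ μ) (hμ : ∀ z, φ z = 0 → z ≠ 0 → μ ≤ nn z) :
    μ ^ Fintype.card ι < Fintype.card Q * 2 := by
  by_contra hle
  push Not at hle
  obtain ⟨S, hS1, hS2⟩ := exists_many φ (X := μ - 1) (k := 2) (by rwa [Nat.sub_add_cancel hμ1])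
  obtain ⟨z, hz, hz0⟩ := Finset.exists_mem_ne (show 1 < S.card by omega) 0
  have h1 := hμ z (hS2 z hz).1 hz0
  have h2 := (hS2 z hz).2
  omega

/-- **Short vectors in the cosets of `N` times the kernel.** -/
theorem exists_short [DecidableEq ι] {Q : Type} [AddCommGroup Q] [Fintype Q]
    (φ : (ι → ℤ) →+ Q) {m μ : ℕ} (hm : Fintype.card ι = m + 1) (hμ1 : 1 ≤ μ)
    (hμ : ∀ z, φ z = 0 → z ≠ 0 → μ ≤ nn z) {N : ℕ} (hN : 1 ≤ N) (v : ι → ℤ) :
    ∃ w, φ w = 0 ∧ nn (v - (N : ℤ) • w) * μ ^ m ≤ (4 * (m + 1)) ^ (m + 1) *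
      (N * Fintype.card Q) := by
  have hmin := pow_lt_of_min φ hμ1 hμ
  rw [hm] at hmin
  set D := Fintype.card Q with hD
  obtain ⟨ℓ, hℓ⟩ : ∃ ℓ, ℓ = (μ + m) / (m + 1) := ⟨_, rfl⟩
  have hℓ1 : 1 ≤ ℓ := by
    rw [hℓ, Nat.one_le_div_iff (Nat.succ_pos m)]
    omega
  have hℓ2 : μ ≤ (m + 1) * ℓ := by
    have := Nat.lt_div_mul_add (a := μ + m) (b := m + 1) (Nat.succ_pos m)
    rw [← hℓ, mul_comm ℓ (m + 1)] at this
    omega
  have hℓ3 : (m + 1) * (ℓ - 1) < μ := by
    have h1 := Nat.div_mul_le_self (μ + m) (m + 1)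
    rw [← hℓ] at h1
    obtain ⟨k, rfl⟩ : ∃ k, ℓ = k + 1 := ⟨ℓ - 1, by omega⟩
    rw [Nat.add_sub_cancel]
    have h2 : (k + 1) * (m + 1) = (m + 1) * k + (m + 1) := by ring
    omega
  have hℓ4 : ℓ ≤ μ := by
    obtain ⟨k, rfl⟩ : ∃ k, ℓ = k + 1 := ⟨ℓ - 1, by omega⟩
    rw [Nat.add_sub_cancel] at hℓ3
    have : k ≤ (m + 1) * k := Nat.le_mul_of_pos_left _ (Nat.succ_pos m)
    omega
  have hℓ5 : ℓ ^ (m + 1) < D * 2 := (Nat.pow_le_pow_left hℓ4 _).trans_lt hmin
  set Y := 2 * 4 ^ m * D / ℓ ^ (m + 1) + 1 with hY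
  set X := ℓ * Y with hX
  have hXℓ : X / ℓ = Y := by rw [hX, Nat.mul_div_cancel_left _ hℓ1]
  have hY1 : 1 ≤ Y := Nat.succ_le_succ (Nat.zero_le _)
  have hpos : 0 < ℓ ^ (m + 1) := Nat.pow_pos hℓ1
  have hA : 2 * 4 ^ m * D ≤ Y * ℓ ^ (m + 1) := by
    have := Nat.lt_div_mul_add (a := 2 * 4 ^ m * D) hpos
    rw [hY, Nat.add_mul, one_mul]
    exact this.le
  have hcond : D * ((2 * (X / ℓ) + 2) ^ m + 1) ≤ (X + 1) ^ (m + 1) := by
    rw [hXℓ]
    have h1 : (2 * Y + 2) ^ m + 1 ≤ 2 * (4 * Y) ^ m := by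
      have h2 : (2 * Y + 2) ^ m ≤ (4 * Y) ^ m := Nat.pow_le_pow_left (by omega) _
      have h3 : 1 ≤ (4 * Y) ^ m := Nat.one_le_pow _ _ (by omega)
      omega
    calc D * ((2 * Y + 2) ^ m + 1) ≤ D * (2 * (4 * Y) ^ m) := Nat.mul_le_mul_left _ h1
      _ = (2 * 4 ^ m * D) * Y ^ m := by rw [mul_pow]; ring
      _ ≤ (Y * ℓ ^ (m + 1)) * Y ^ m := Nat.mul_le_mul_right _ hA
      _ = X ^ (m + 1) := by rw [hX, mul_pow]; ring
      _ ≤ (X + 1) ^ (m + 1) := Nat.pow_le_pow_left (Nat.le_succ X) _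
  have hspan := span_of_large φ hm hℓ1 hμ hℓ3 hcond
  obtain ⟨w, hw, hwn⟩ := exists_reduced {z : ι → ℤ | φ z = 0 ∧ nn z ≤ X} (X := X)
    (fun z hz => hz.2) hspan hN v
  refine ⟨w, ?_, ?_⟩
  · have : AddSubgroup.closure {z : ι → ℤ | φ z = 0 ∧ nn z ≤ X} ≤ φ.ker := by
      rw [AddSubgroup.closure_le]
      exact fun z hz => hz.1
    exact this hw
  · have hX1 : X * ℓ ^ m ≤ 4 ^ (m + 1) * D := by
      have h1 : X * ℓ ^ m = (2 * 4 ^ m * D / ℓ ^ (m + 1)) * ℓ ^ (m + 1) + ℓ ^ (m + 1) := by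
        rw [hX, hY]; ring
      have h2 := Nat.div_mul_le_self (2 * 4 ^ m * D) (ℓ ^ (m + 1))
      have h3 : 1 ≤ 4 ^ m := Nat.one_le_pow _ _ (by omega)
      have h4 : D * 1 ≤ D * 4 ^ m := Nat.mul_le_mul_left _ h3
      calc X * ℓ ^ m = _ := h1
        _ ≤ 2 * 4 ^ m * D + D * 2 := Nat.add_le_add h2 hℓ5.le
        _ ≤ 2 * 4 ^ m * D + 2 * (D * 4 ^ m) := by omega
        _ = 4 ^ (m + 1) * D := by ring
    rw [hm] at hwn
    calc nn (v - (N : ℤ) • w) * μ ^ m ≤ ((m + 1) * (N * X)) * ((m + 1) * ℓ) ^ m :=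
          Nat.mul_le_mul hwn (Nat.pow_le_pow_left hℓ2 _)
      _ = (m + 1) ^ (m + 1) * N * (X * ℓ ^ m) := by rw [mul_pow]; ring
      _ ≤ (m + 1) ^ (m + 1) * N * (4 ^ (m + 1) * D) := Nat.mul_le_mul_left _ hX1
      _ = (4 * (m + 1)) ^ (m + 1) * (N * D) := by rw [mul_pow]; ring

end Pool.Agent.U94.NA
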