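import Pool.Agent.U94.NA.Digits

/-!
# The rings with a power basis `1, π, …, π ^ (d - 1)` and `π ^ d = ± N`
-/

set_option autoImplicit false

namespace Pool.Agent.U94.NA

open Finset Module

variable {R : Type} [CommRing R]

theorem coord_zero_intCast {e : ℕ} {π : R} (b : Basis (Fin (e + 1)) ℤ R)
    (hb : ∀ i, b i = π ^ (i : ℕ)) (k : ℤ) : b.repr (k : R) 0 = k := by
  have h1 : (k : R) = k • b 0 := by
    rw [hb 0]
    simp
  rw [h1, map_smul, b.repr_self]
  simp

theorem coord_zero_mul {e : ℕ} {π : R} (b : Basis (Fin (e + 1)) ℤ R)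
    (hb : ∀ i, b i = π ^ (i : ℕ)) {ε : ℤ} {N : ℕ} (hπ : π ^ (e + 1) = (ε : R) * N) (y : R) :
    b.repr (π * y) 0 = ε * N * b.repr y (Fin.last e) := by
  have key : (b.coord 0).comp (LinearMap.mulLeft ℤ π) = (ε * N : ℤ) • b.coord (Fin.last e) := by
    apply b.ext
    intro i
    change b.repr (π * b i) 0 = (ε * N : ℤ) • b.repr (b i) (Fin.last e)
    refine Fin.lastCases ?_ (fun j => ?_) i
    · have h1 : π * b (Fin.last e) = ((ε * N : ℤ) : R) := by
        rw [hb, Fin.val_last, ← pow_succ', hπ]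
        push_cast
        ring
      rw [h1, coord_zero_intCast b hb, b.repr_self]
      simp
    · have h1 : π * b j.castSucc = b j.succ := by
        rw [hb, hb, Fin.val_castSucc, Fin.val_succ, pow_succ']
      rw [h1, b.repr_self, b.repr_self, Finsupp.single_apply, Finsupp.single_apply,
        if_neg (Fin.succ_ne_zero j), if_neg (Fin.castSucc_ne_last j)]
      simp
  have := congrArg (fun L : R →ₗ[ℤ] ℤ => L y) key
  simpa using this

theorem digitSystem {e N : ℕ} (hN : 2 ≤ N) {π : R} (b : Basis (Fin (e + 1)) ℤ R)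
    (hb : ∀ i, b i = π ^ (i : ℕ)) {ε : ℤ} (hε : ε * ε = 1) (hπ : π ^ (e + 1) = (ε : R) * N) :
    DigitSystem π N ∧ π ∣ (N : R) := by
  have hεR : (ε : R) * ε = 1 := by exact_mod_cast congrArg (Int.cast : ℤ → R) hε
  have hdvd : π ∣ (N : R) := by
    refine ⟨π ^ e * ε, ?_⟩
    have h1 : (N : R) = ε * (ε * N) := by rw [← mul_assoc, hεR, one_mul]
    rw [h1, ← hπ, pow_succ]
    ring
  have huniq : ∀ k : ℤ, π ∣ (k : R) → (N : ℤ) ∣ k := by
    rintro k ⟨y, hy⟩
    have h1 := coord_zero_intCast b hb k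
    rw [hy, coord_zero_mul b hb hπ] at h1
    exact ⟨ε * b.repr y (Fin.last e), by rw [← h1]; ring⟩
  refine ⟨⟨?_, ?_, ?_⟩, hdvd⟩
  · intro h0
    have h1 := huniq 1 (by
      rw [h0] at hπ ⊢
      rw [zero_pow (Nat.succ_ne_zero e)] at hπ
      have h2 : (N : R) = 0 := by
        have h1 : (N : R) = ε * (ε * N) := by rw [← mul_assoc, hεR, one_mul]
        rw [h1, ← hπ, mul_zero]
      have h3 := coord_zero_intCast b hb (N : ℤ)
      push_cast at h3
      rw [h2] at h3
      have h4 : b.repr (0 : R) 0 = 0 := by simp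
      omega)
    have := Int.le_of_dvd one_pos h1
    omega
  · intro x
    have hx : π ∣ x - (b.repr x 0 : R) := by
      have h1 : x = ∑ i, b.repr x i • b i := (b.sum_repr x).symm
      have h2 : x - (b.repr x 0 : R) = ∑ i : Fin e, b.repr x i.succ • b i.succ := by
        have h3 : x = (b.repr x 0 : R) + ∑ i : Fin e, b.repr x i.succ • b i.succ := by
          have h4 := h1
          rw [Fin.sum_univ_succ, hb 0] at h4
          simpa only [Fin.val_zero, pow_zero, zsmul_eq_mul, mul_one] using h4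
        exact sub_eq_iff_eq_add'.2 h3
      rw [h2]
      apply Finset.dvd_sum
      intro i _
      rw [hb, Fin.val_succ, pow_succ, zsmul_eq_mul]
      exact (dvd_mul_left _ _).mul_left _
    have hN0 : (0 : ℤ) < N := by omega
    have h0 := Int.emod_nonneg (b.repr x 0) hN0.ne'
    have h1 := Int.emod_lt_of_pos (b.repr x 0) hN0
    refine ⟨⟨(b.repr x 0 % N).toNat, by omega⟩, ?_⟩
    have h2 : (((b.repr x 0 % N).toNat : ℕ) : R) = ((b.repr x 0 % N : ℤ) : R) := by
      have h3 := Int.toNat_of_nonneg h0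
      exact_mod_cast congrArg (Int.cast : ℤ → R) h3
    rw [h2]
    have h3 : x - ((b.repr x 0 % N : ℤ) : R) =
        (x - (b.repr x 0 : R)) + (N : R) * ((b.repr x 0 / N : ℤ) : R) := by
      have h4 : ((b.repr x 0 : ℤ) : R) = ((b.repr x 0 % N : ℤ) : R) +
          (N : R) * ((b.repr x 0 / N : ℤ) : R) := by
        exact_mod_cast congrArg (Int.cast : ℤ → R) (Int.emod_add_mul_ediv (b.repr x 0) N).symm
      linear_combination h4
    rw [h3]
    exact dvd_add hx (hdvd.mul_right _)
  · intro c c' h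
    have h1 := huniq ((c : ℕ) - (c' : ℕ) : ℤ) (by push_cast; exact h)
    have h2 := c.isLt
    have h3 := c'.isLt
    obtain ⟨k, hk⟩ := h1
    ext
    have hk0 : k = 0 := by
      by_contra hk0
      rcases lt_or_gt_of_ne hk0 with hlt | hgt
      · nlinarith
      · nlinarith
    rw [hk0, mul_zero] at hk
    omega

end Pool.Agent.U94.NA
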