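import Pool.Agent.U94.NA.Radix

/-!
# The two size functions
-/

set_option autoImplicit false

namespace Pool.Agent.U94.NA

open Finset Module

variable {R : Type} [CommRing R]

/-- The size of case (i): the element `u + v π` has size `log_N (u ^ 2 + N v ^ 2)`. -/
noncomputable def sizeOne (N : ℕ) (b : Basis (Fin 2) ℤ R) (x : R) : ℝ :=
  Real.logb N ((b.repr x 0 : ℝ) ^ 2 + N * (b.repr x 1 : ℝ) ^ 2)

/-- The size of case (ii): the element `u₀ + u₁ π + ⋯ + u_{d-1} π ^ (d - 1)` has size the maximum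
of `d log_N |u_i| + i` over the indices `i` with `u_i ≠ 0`. -/
noncomputable def sizeTwo (N : ℕ) {d : ℕ} (b : Basis (Fin d) ℤ R) (x : R) : ℝ :=
  ⨆ i : Fin d, if b.repr x i = 0 then 0 else d * Real.logb N |(b.repr x i : ℝ)| + (i : ℕ)

theorem natAbs_repr_le {d : ℕ} (b : Basis (Fin d) ℤ R) (x : R) (i : Fin d) :
    (b.repr x i).natAbs ≤ nr b x := natAbs_le_nn (b.equivFun x) i

theorem abs_repr_le {d : ℕ} (b : Basis (Fin d) ℤ R) (x : R) (i : Fin d) :
    |(b.repr x i : ℝ)| ≤ nr b x := by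
  have h := natAbs_repr_le b x i
  have h2 : |b.repr x i| ≤ (nr b x : ℤ) := by
    rw [Int.abs_eq_natAbs]
    exact_mod_cast h
  exact_mod_cast h2

theorem exists_repr_eq {d : ℕ} (b : Basis (Fin d) ℤ R) {x : R} (hx : x ≠ 0) :
    ∃ i, |(b.repr x i : ℝ)| = nr b x := by
  have h1 := nr_pos b hx
  have hne : (Finset.univ : Finset (Fin d)).Nonempty := by
    by_contra h
    rw [Finset.not_nonempty_iff_eq_empty] at h
    have : nr b x = 0 := by
      unfold nr nn
      rw [h]
      simp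
    omega
  obtain ⟨i, -, hi⟩ := Finset.exists_mem_eq_sup _ hne (fun i => (b.equivFun x i).natAbs)
  refine ⟨i, ?_⟩
  have h2 : nr b x = (b.repr x i).natAbs := hi
  rw [h2, Nat.cast_natAbs, Int.cast_abs]

theorem sizeOne_bounds {N : ℕ} (hN : 2 ≤ N) (b : Basis (Fin 2) ℤ R) (x : R) :
    2 / Real.log N * Real.log (nr b x) ≤ sizeOne N b x ∧
      sizeOne N b x ≤ 2 / Real.log N * Real.log (nr b x) + Real.logb N (N + 1) := by
  have hN' : (2 : ℝ) ≤ N := by exact_mod_cast hN
  have hlog : 0 < Real.log N := Real.log_pos (by linarith)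
  by_cases hx : x = 0
  · subst hx
    have h1 : nr b (0 : R) = 0 := (nr_eq_zero b).2 rfl
    have h2 : sizeOne N b (0 : R) = 0 := by simp [sizeOne]
    rw [h1, h2]
    simp only [Nat.cast_zero, Real.log_zero, mul_zero, le_refl, true_and, zero_add]
    exact Real.logb_nonneg (by linarith) (by linarith)
  have h1 : (1 : ℝ) ≤ nr b x := by exact_mod_cast nr_pos b hx
  have h2 : 2 / Real.log N * Real.log (nr b x) = Real.logb N ((nr b x : ℝ) ^ 2) := by
    rw [Real.logb_pow, Real.logb]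
    push_cast
    ring
  rw [h2]
  have ha : ∀ i, (b.repr x i : ℝ) ^ 2 ≤ (nr b x : ℝ) ^ 2 := by
    intro i
    rw [← sq_abs]
    exact pow_le_pow_left₀ (abs_nonneg _) (abs_repr_le b x i) 2
  have hb : (nr b x : ℝ) ^ 2 ≤ (b.repr x 0 : ℝ) ^ 2 + N * (b.repr x 1 : ℝ) ^ 2 := by
    obtain ⟨i, hi⟩ := exists_repr_eq b hx
    rw [← hi, sq_abs]
    have h3 := sq_nonneg (b.repr x 0 : ℝ)
    have h4 := sq_nonneg (b.repr x 1 : ℝ)
    have h5 : (b.repr x 1 : ℝ) ^ 2 ≤ N * (b.repr x 1 : ℝ) ^ 2 := by nlinarith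
    fin_cases i
    · change (b.repr x 0 : ℝ) ^ 2 ≤ _
      nlinarith
    · change (b.repr x 1 : ℝ) ^ 2 ≤ _
      nlinarith
  constructor
  · exact Real.logb_le_logb_of_le (by linarith) (by positivity) hb
  · rw [← Real.logb_mul (by positivity) (by positivity)]
    apply Real.logb_le_logb_of_le (by linarith) (lt_of_lt_of_le (by positivity) hb)
    have h3 := ha 0
    have h4 := ha 1
    nlinarith

theorem sizeTwo_bounds {N d : ℕ} (hN : 2 ≤ N) (hd : 1 ≤ d) (b : Basis (Fin d) ℤ R) (x : R) :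
    d / Real.log N * Real.log (nr b x) ≤ sizeTwo N b x ∧
      sizeTwo N b x ≤ d / Real.log N * Real.log (nr b x) + d := by
  have hN' : (2 : ℝ) ≤ N := by exact_mod_cast hN
  have hlog : 0 < Real.log N := Real.log_pos (by linarith)
  have : Nonempty (Fin d) := ⟨⟨0, by omega⟩⟩
  have hd' : (0 : ℝ) ≤ d := Nat.cast_nonneg d
  have hL : 0 ≤ Real.log (nr b x) := Real.log_natCast_nonneg _
  constructor
  · by_cases hx : x = 0
    · subst hx
      have h1 : nr b (0 : R) = 0 := (nr_eq_zero b).2 rfl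
      have h2 : sizeTwo N b (0 : R) = 0 := by simp [sizeTwo]
      rw [h1, h2]
      simp
    obtain ⟨i, hi⟩ := exists_repr_eq b hx
    have h1 : (1 : ℝ) ≤ nr b x := by exact_mod_cast nr_pos b hx
    have h0 : b.repr x i ≠ 0 := by
      intro h0
      rw [h0] at hi
      simp only [Int.cast_zero, abs_zero] at hi
      linarith
    have h2 := le_ciSup (Set.finite_range (fun i : Fin d => if b.repr x i = 0 then (0 : ℝ) else
      d * Real.logb N |(b.repr x i : ℝ)| + (i : ℕ))).bddAbove i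
    refine le_trans ?_ h2
    simp only [if_neg h0]
    rw [hi, Real.logb, ← mul_div_assoc, div_mul_eq_mul_div]
    have : (0 : ℝ) ≤ ((i : ℕ) : ℝ) := Nat.cast_nonneg _
    linarith
  · refine ciSup_le fun i => ?_
    by_cases h0 : b.repr x i = 0
    · rw [if_pos h0]
      positivity
    · rw [if_neg h0]
      have h1 : 0 < |(b.repr x i : ℝ)| := abs_pos.2 (by exact_mod_cast h0)
      have h2 := Real.log_le_log h1 (abs_repr_le b x i)
      have h3 : (d : ℝ) * Real.logb N |(b.repr x i : ℝ)| ≤ d / Real.log N * Real.log (nr b x) := by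
        rw [Real.logb, ← mul_div_assoc, div_mul_eq_mul_div]
        exact div_le_div_of_nonneg_right (mul_le_mul_of_nonneg_left h2 hd') hlog.le
      have h4 : (((i : ℕ) : ℝ)) ≤ d := by exact_mod_cast i.isLt.le
      linarith

end Pool.Agent.U94.NA
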